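import Pool.Agent.H46.BX.Win

set_option autoImplicit false

/-!
B4, part 2: the inequality of Poincare for the transition weights at a vertex.
-/

namespace Pool.H90BX.Fl46

open Finset
open scoped Classical

/-- the inequality for three classes with ordered sizes -/
theorem key_three {x y z N a b c : ℝ} (hx : 0 ≤ x) (hxy : x ≤ y) (hyz : y ≤ z)
    (hN : x + y + z = N) (hz : 2 * z ≤ N) :
    x * y * (a - b) ^ 2 + x * z * (a - c) ^ 2 + y * z * (b - c) ^ 2 ≤
      3 * N * ((N - 2 * z) * (a - b) ^ 2 + (N - 2 * y) * (a - c) ^ 2 +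
        (N - 2 * x) * (b - c) ^ 2) := by
  have hN0 : 0 ≤ N := by linarith
  have h1 : y * z ≤ 3 / 4 * N * (N - 2 * x) := by
    nlinarith [sq_nonneg (y - z)]
  have h2 : x * z ≤ N * (N - 2 * y) / 2 := by nlinarith
  have h3 : x * y ≤ N * (N - 2 * y) / 2 := by nlinarith
  have h4 : (a - b) ^ 2 ≤ 2 * (a - c) ^ 2 + 2 * (b - c) ^ 2 := by
    nlinarith [sq_nonneg ((a - c) + (b - c))]
  have hA := sq_nonneg (a - b)
  have hB := sq_nonneg (a - c)
  have hC := sq_nonneg (b - c)
  have h5 : x * y * (a - b) ^ 2 ≤ N * (N - 2 * y) * ((a - c) ^ 2 + (b - c) ^ 2) := by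
    calc x * y * (a - b) ^ 2 ≤ N * (N - 2 * y) / 2 * (a - b) ^ 2 :=
          mul_le_mul_of_nonneg_right h3 hA
      _ ≤ N * (N - 2 * y) / 2 * (2 * (a - c) ^ 2 + 2 * (b - c) ^ 2) :=
          mul_le_mul_of_nonneg_left h4 (by nlinarith)
      _ = _ := by ring
  have h6 : x * z * (a - c) ^ 2 ≤ N * (N - 2 * y) / 2 * (a - c) ^ 2 :=
    mul_le_mul_of_nonneg_right h2 hB
  have h7 : y * z * (b - c) ^ 2 ≤ 3 / 4 * N * (N - 2 * x) * (b - c) ^ 2 :=
    mul_le_mul_of_nonneg_right h1 hC
  have h8 : N * (N - 2 * y) * (b - c) ^ 2 ≤ N * (N - 2 * x) * (b - c) ^ 2 :=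
    mul_le_mul_of_nonneg_right (mul_le_mul_of_nonneg_left (by linarith) hN0) hC
  have h9 : 0 ≤ N * (N - 2 * z) * (a - b) ^ 2 :=
    mul_nonneg (mul_nonneg hN0 (by linarith)) hA
  have h10 : 0 ≤ N * (N - 2 * y) * (a - c) ^ 2 :=
    mul_nonneg (mul_nonneg hN0 (by linarith)) hB
  have h11 : 0 ≤ N * (N - 2 * x) * (b - c) ^ 2 :=
    mul_nonneg (mul_nonneg hN0 (by linarith)) hC
  nlinarith

/-- the inequality for three classes -/
theorem key_three' {x y z N a b c : ℝ} (hx : 0 ≤ x) (hy : 0 ≤ y) (hz : 0 ≤ z)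
    (hN : x + y + z = N) (hx2 : 2 * x ≤ N) (hy2 : 2 * y ≤ N) (hz2 : 2 * z ≤ N) :
    x * y * (a - b) ^ 2 + x * z * (a - c) ^ 2 + y * z * (b - c) ^ 2 ≤
      3 * N * ((N - 2 * z) * (a - b) ^ 2 + (N - 2 * y) * (a - c) ^ 2 +
        (N - 2 * x) * (b - c) ^ 2) := by
  rcases le_total x y with h1 | h1 <;> rcases le_total y z with h2 | h2 <;>
    rcases le_total x z with h3 | h3
  · exact key_three hx h1 h2 hN hz2
  · exact key_three hx h1 h2 hN hz2
  · have := key_three (a := a) (b := c) (c := b) hx h3 h2 (by linarith) hy2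
    nlinarith [this]
  · have := key_three (a := c) (b := a) (c := b) hz h3 h1 (by linarith) hy2
    nlinarith [this]
  · have := key_three (a := b) (b := a) (c := c) hy h1 h3 (by linarith) hz2
    nlinarith [this]
  · have := key_three (a := b) (b := c) (c := a) hy h2 h3 (by linarith) hx2
    nlinarith [this]
  · have := key_three (a := c) (b := b) (c := a) hz h2 h1 (by linarith) hx2
    nlinarith [this]
  · have := key_three (a := c) (b := b) (c := a) hz h2 h1 (by linarith) hx2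
    nlinarith [this]

variable {V : Type} [Fintype V] [DecidableEq V] {l : LS V}

/-- the inequality between the classes -/
theorem coarse (hb : Bdd l) (v : V) (a : Lb → ℝ) :
    ∑ i, (cnt l v i : ℝ) * a i ^ 2 - (∑ i, (cnt l v i : ℝ) * a i) ^ 2 / NN V ≤
      3 * ∑ i, ∑ j, mm l v i j * (a i - a j) ^ 2 := by
  have hN := NN_pos hb
  rcases hb.2 v with h | h
  · have hs := cnt_sum4 l v
    have h3 := T3_three h
    have hc0 : (0 : ℝ) ≤ cnt l v 0 := Nat.cast_nonneg _
    have hc1 : (0 : ℝ) ≤ cnt l v 1 := Nat.cast_nonneg _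
    have hc2 : (0 : ℝ) ≤ cnt l v 2 := Nat.cast_nonneg _
    have g0 := T3_le h 0
    have g1 := T3_le h 1
    have g2 := T3_le h 2
    have m01 := mm_T3 hb h (i := 0) (j := 1) (by simp) (by simp) (by simp)
    have m02 := mm_T3 hb h (i := 0) (j := 2) (by simp) (by simp) (by simp)
    have m12 := mm_T3 hb h (i := 1) (j := 2) (by simp) (by simp) (by simp)
    rw [third_01] at m01
    rw [third_02] at m02
    rw [third_12] at m12
    rw [h3] at hs
    have hR : ∑ i, ∑ j, mm l v i j * (a i - a j) ^ 2 =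
        (NN V - 2 * cnt l v 2) * (a 0 - a 1) ^ 2 + (NN V - 2 * cnt l v 1) * (a 0 - a 2) ^ 2 +
        (NN V - 2 * cnt l v 0) * (a 1 - a 2) ^ 2 := by
      simp only [Fin.sum_univ_four]
      rw [mm_self, mm_self, mm_self, mm_self, mm_T3_three hb h 0, mm_T3_three hb h 1,
        mm_T3_three hb h 2, mm_symm l v 3 0, mm_symm l v 3 1, mm_symm l v 3 2,
        mm_T3_three hb h 0, mm_T3_three hb h 1, mm_T3_three hb h 2, mm_symm l v 1 0,
        mm_symm l v 2 0, mm_symm l v 2 1, m01, m02, m12]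
      ring
    rw [hR, sub_le_iff_le_add, ← sub_le_iff_le_add', le_div_iff₀ hN]
    have hk := key_three' (a := a 0) (b := a 1) (c := a 2) hc0 hc1 hc2 (by linarith)
      (by linarith : 2 * (cnt l v 0 : ℝ) ≤ NN V) (by linarith : 2 * (cnt l v 1 : ℝ) ≤ NN V)
      (by linarith : 2 * (cnt l v 2 : ℝ) ≤ NN V)
    simp only [Fin.sum_univ_four]
    rw [h3]
    have hNe : NN V = cnt l v 0 + cnt l v 1 + cnt l v 2 := by linarith
    have hexp : ((cnt l v 0 : ℝ) * a 0 ^ 2 + cnt l v 1 * a 1 ^ 2 + cnt l v 2 * a 2 ^ 2 +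
        0 * a 3 ^ 2) * NN V - (cnt l v 0 * a 0 + cnt l v 1 * a 1 + cnt l v 2 * a 2 +
        0 * a 3) ^ 2 = cnt l v 0 * cnt l v 1 * (a 0 - a 1) ^ 2 +
        cnt l v 0 * cnt l v 2 * (a 0 - a 2) ^ 2 + cnt l v 1 * cnt l v 2 * (a 1 - a 2) ^ 2 := by
      rw [hNe]
      ring
    nlinarith [hk, hexp]
  · have h1 : ∀ i, (cnt l v i : ℝ) = NN V / 4 := fun i => by
      have := T4_eq h i
      linarith
    have hR : ∑ i, ∑ j, mm l v i j * (a i - a j) ^ 2 =
        NN V / 12 * ∑ i, ∑ j, (a i - a j) ^ 2 := by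
      rw [Finset.mul_sum]
      refine Finset.sum_congr rfl fun i _ => ?_
      rw [Finset.mul_sum]
      refine Finset.sum_congr rfl fun j _ => ?_
      by_cases hij : i = j
      · rw [hij]
        ring
      · rw [mm_T4 h hij]
    rw [hR]
    simp only [Fin.sum_univ_four, h1]
    rw [sub_le_iff_le_add, ← sub_le_iff_le_add', le_div_iff₀ hN]
    have hpos : 0 ≤ (a 0 - a 1) ^ 2 + (a 0 - a 2) ^ 2 + (a 0 - a 3) ^ 2 + (a 1 - a 2) ^ 2 +
        (a 1 - a 3) ^ 2 + (a 2 - a 3) ^ 2 := by positivity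
    have h2 : 0 ≤ NN V ^ 2 * ((a 0 - a 1) ^ 2 + (a 0 - a 2) ^ 2 + (a 0 - a 3) ^ 2 +
        (a 1 - a 2) ^ 2 + (a 1 - a 3) ^ 2 + (a 2 - a 3) ^ 2) := by positivity
    nlinarith [h2]

theorem sum_fiber (l : LS V) (v : V) (F : Lb → V → ℝ) :
    ∑ x, (if x ≠ v then F (l v x) x else 0) = ∑ i, ∑ x ∈ cls l v i, F i x := by
  have h1 : ∀ i, ∑ x ∈ cls l v i, F i x = ∑ x, if x ≠ v ∧ l v x = i then F i x else 0 := by
    intro i
    unfold cls
    rw [Finset.sum_filter]
  simp_rw [h1]
  rw [Finset.sum_comm]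
  refine Finset.sum_congr rfl fun x _ => ?_
  by_cases h : x = v
  · rw [if_neg (fun h' => h' h)]
    exact (Finset.sum_eq_zero fun i _ => if_neg fun h' : x ≠ v ∧ l v x = i => h'.1 h).symm
  · rw [if_pos h, Finset.sum_eq_single (l v x)]
    · rw [if_pos ⟨h, rfl⟩]
    · intro i _ hi
      exact if_neg fun h' : _ ∧ _ => hi h'.2.symm
    · intro h'
      exact absurd (Finset.mem_univ _) h'

/-- the inequality of Poincare -/
theorem poincare (hb : Bdd l) (v : V) (u : V → ℝ) (m : ℝ)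
    (hm : m * NN V = ∑ x, if x ≠ v then u x else 0) :
    ∑ x, (if x ≠ v then (u x - m) ^ 2 else 0) ≤
      3 * ∑ x, ∑ y, Q l v x y * (u x - u y) ^ 2 := by
  have hN := NN_pos hb
  let s : Lb → ℝ := fun i => ∑ x ∈ cls l v i, u x
  let t : Lb → ℝ := fun i => ∑ x ∈ cls l v i, u x ^ 2
  let a : Lb → ℝ := fun i => s i / cnt l v i
  have hz : ∀ i, cnt l v i = 0 → s i = 0 ∧ t i = 0 := by
    intro i h
    have h1 : cls l v i = ∅ := Finset.card_eq_zero.1 h
    exact ⟨by change ∑ x ∈ cls l v i, u x = 0; rw [h1, Finset.sum_empty],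
      by change ∑ x ∈ cls l v i, u x ^ 2 = 0; rw [h1, Finset.sum_empty]⟩
  have hca : ∀ i, (cnt l v i : ℝ) * a i = s i := by
    intro i
    change (cnt l v i : ℝ) * (s i / cnt l v i) = s i
    by_cases h : cnt l v i = 0
    · rw [(hz i h).1]
      simp
    · exact mul_div_cancel₀ _ (by exact_mod_cast h)
  -- within the classes
  have hcs : ∀ i, (cnt l v i : ℝ) * a i ^ 2 ≤ t i := by
    intro i
    by_cases h : cnt l v i = 0
    · rw [h, (hz i h).2]
      simp
    · have h0 : (0 : ℝ) < cnt l v i := by exact_mod_cast Nat.pos_of_ne_zero h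
      have h1 : s i ^ 2 ≤ cnt l v i * t i := sq_sum_le_card_mul_sum_sq
      have h2 : (cnt l v i : ℝ) * ((cnt l v i : ℝ) * a i ^ 2) ≤ cnt l v i * t i := by
        refine le_trans (le_of_eq ?_) h1
        rw [← hca i]
        ring
      exact le_of_mul_le_mul_left h2 h0
  have hT : ∑ x, (if x ≠ v then (u x - m) ^ 2 else 0) =
      ∑ i, t i - (∑ i, s i) ^ 2 / NN V := by
    have h1 : ∑ x, (if x ≠ v then (u x - m) ^ 2 else 0) =
        ∑ x, (if x ≠ v then u x ^ 2 else 0) - 2 * m * ∑ x, (if x ≠ v then u x else 0) +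
          m ^ 2 * ∑ x, (if x ≠ v then (1 : ℝ) else 0) := by
      rw [Finset.mul_sum, Finset.mul_sum, ← Finset.sum_sub_distrib, ← Finset.sum_add_distrib]
      refine Finset.sum_congr rfl fun x _ => ?_
      split_ifs <;> ring
    have h2 : ∑ x, (if x ≠ v then (1 : ℝ) else 0) = NN V := by
      rw [sum_fiber l v fun _ _ => 1, ← cnt_sum_univ l v]
      refine Finset.sum_congr rfl fun i _ => ?_
      rw [Finset.sum_const, nsmul_eq_mul, mul_one]
      rfl
    have h3 : ∑ x, (if x ≠ v then u x ^ 2 else 0) = ∑ i, t i := sum_fiber l v fun _ x => u x ^ 2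
    have h4 : ∑ x, (if x ≠ v then u x else 0) = ∑ i, s i := sum_fiber l v fun _ x => u x
    rw [h1, h2, h3, ← hm, ← h4, ← hm]
    field_simp
    ring
  have hD : ∑ x, ∑ y, Q l v x y * (u x - u y) ^ 2 =
      ∑ i, ∑ j, mm l v i j / (cnt l v i * cnt l v j) *
        (cnt l v j * t i + cnt l v i * t j - 2 * s i * s j) := by
    have h1 : ∀ x, ∑ y, Q l v x y * (u x - u y) ^ 2 = if x ≠ v then
        (fun i x => ∑ j, ∑ y ∈ cls l v j, mm l v i j / (cnt l v i * cnt l v j) *
          (u x - u y) ^ 2) (l v x) x else 0 := by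
      intro x
      by_cases hx : x = v
      · rw [if_neg (fun h' => h' hx)]
        refine Finset.sum_eq_zero fun y _ => ?_
        rw [Q_eq_zero_left l hx, zero_mul]
      · rw [if_pos hx]
        simp only
        rw [← sum_fiber l v fun j y => mm l v (l v x) j / (cnt l v (l v x) * cnt l v j) *
          (u x - u y) ^ 2]
        refine Finset.sum_congr rfl fun y _ => ?_
        unfold Q
        by_cases hy : y = v
        · rw [if_neg (fun h' => h'.2 hy), if_neg (fun h' => h' hy), zero_mul]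
        · rw [if_pos ⟨hx, hy⟩, if_pos hy]
    simp_rw [h1]
    rw [sum_fiber l v fun i x => ∑ j, ∑ y ∈ cls l v j, mm l v i j / (cnt l v i * cnt l v j) *
          (u x - u y) ^ 2]
    refine Finset.sum_congr rfl fun i _ => ?_
    rw [Finset.sum_comm]
    refine Finset.sum_congr rfl fun j _ => ?_
    simp only [← Finset.mul_sum]
    congr 1
    have h2 : ∀ x, ∑ y ∈ cls l v j, (u x - u y) ^ 2 =
        cnt l v j * u x ^ 2 - 2 * u x * s j + t j := by
      intro x
      have h3 : ∀ y, (u x - u y) ^ 2 = u x ^ 2 - 2 * u x * u y + u y ^ 2 := fun y => by ring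
      simp_rw [h3]
      rw [Finset.sum_add_distrib, Finset.sum_sub_distrib, Finset.sum_const, nsmul_eq_mul,
        ← Finset.mul_sum]
      rfl
    simp_rw [h2]
    rw [Finset.sum_add_distrib, Finset.sum_sub_distrib, Finset.sum_const, nsmul_eq_mul,
      ← Finset.mul_sum, ← Finset.sum_mul, ← Finset.mul_sum]
    have h4 : ((cls l v i).card : ℝ) = cnt l v i := rfl
    rw [h4]
    ring
  have hD2 : ∑ x, ∑ y, Q l v x y * (u x - u y) ^ 2 =
      2 * ∑ i, (t i - cnt l v i * a i ^ 2) + ∑ i, ∑ j, mm l v i j * (a i - a j) ^ 2 := by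
    rw [hD]
    have h1 : ∀ i j, mm l v i j / (cnt l v i * cnt l v j) *
        (cnt l v j * t i + cnt l v i * t j - 2 * s i * s j) =
        mm l v i j * (t i / cnt l v i) + mm l v i j * (t j / cnt l v j) -
          2 * mm l v i j * (a i * a j) := by
      intro i j
      by_cases hi : cnt l v i = 0
      · rw [mm_zero hb hi]
        ring
      by_cases hj : cnt l v j = 0
      · rw [mm_symm, mm_zero hb hj]
        ring
      have hi' : (cnt l v i : ℝ) ≠ 0 := by exact_mod_cast hi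
      have hj' : (cnt l v j : ℝ) ≠ 0 := by exact_mod_cast hj
      change _ = mm l v i j * (t i / cnt l v i) + mm l v i j * (t j / cnt l v j) -
          2 * mm l v i j * ((s i / cnt l v i) * (s j / cnt l v j))
      field_simp
    have h2 : ∀ i, (cnt l v i : ℝ) * (t i / cnt l v i) = t i := by
      intro i
      by_cases h : cnt l v i = 0
      · rw [(hz i h).2]
        simp
      · exact mul_div_cancel₀ _ (by exact_mod_cast h)
    have h3 : ∑ i, ∑ j, mm l v i j * (t i / cnt l v i) = ∑ i, t i := by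
      refine Finset.sum_congr rfl fun i _ => ?_
      rw [← Finset.sum_mul, mm_sum hb, h2]
    have h4 : ∑ i, ∑ j, mm l v i j * (t j / cnt l v j) = ∑ i, t i := by
      rw [Finset.sum_comm, ← h3]
      refine Finset.sum_congr rfl fun i _ => Finset.sum_congr rfl fun j _ => ?_
      rw [mm_symm]
    have h5 : ∑ i, ∑ j, mm l v i j * a i ^ 2 = ∑ i, (cnt l v i : ℝ) * a i ^ 2 := by
      refine Finset.sum_congr rfl fun i _ => ?_
      rw [← Finset.sum_mul, mm_sum hb]
    have h6 : ∑ i, ∑ j, mm l v i j * a j ^ 2 = ∑ i, (cnt l v i : ℝ) * a i ^ 2 := by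
      rw [Finset.sum_comm, ← h5]
      refine Finset.sum_congr rfl fun i _ => Finset.sum_congr rfl fun j _ => ?_
      rw [mm_symm]
    have h7 : ∑ i, ∑ j, mm l v i j * (a i - a j) ^ 2 =
        2 * ∑ i, (cnt l v i : ℝ) * a i ^ 2 - ∑ i, ∑ j, 2 * mm l v i j * (a i * a j) := by
      have h8 : ∀ i j, mm l v i j * (a i - a j) ^ 2 = mm l v i j * a i ^ 2 +
          mm l v i j * a j ^ 2 - 2 * mm l v i j * (a i * a j) := fun i j => by ring
      simp_rw [h8, Finset.sum_sub_distrib, Finset.sum_add_distrib]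
      rw [h5, h6]
      ring
    simp_rw [h1, Finset.sum_sub_distrib, Finset.sum_add_distrib]
    rw [h3, h4, h7]
    ring
  have hco := coarse hb v a
  have hsum : ∑ i, (cnt l v i : ℝ) * a i = ∑ i, s i := Finset.sum_congr rfl fun i _ => hca i
  rw [hsum] at hco
  have hw : 0 ≤ ∑ i, (t i - cnt l v i * a i ^ 2) :=
    Finset.sum_nonneg fun i _ => sub_nonneg.2 (hcs i)
  rw [hT, hD2]
  have hsplit : ∑ i, t i = ∑ i, (t i - cnt l v i * a i ^ 2) + ∑ i, (cnt l v i : ℝ) * a i ^ 2 := by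
    rw [← Finset.sum_add_distrib]
    exact Finset.sum_congr rfl fun i _ => by ring
  rw [hsplit]
  linarith

end Pool.H90BX.Fl46
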