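import Pool.Agent.H46.BX.Path
import Pool.Agent.H46.BX.Poin

set_option autoImplicit false

/-!
B4, part 4: a function that is almost invariant under U and vanishes on A has small expectation.
-/

namespace Pool.H90BX.Fl46

open Finset
open scoped Classical

variable {V : Type} [Fintype V] [DecidableEq V] {l : LS V}

theorem abs_le_eta {x eta : ℝ} (h : 0 < eta) : |x| ≤ eta + x ^ 2 / eta := by
  have h1 : 0 ≤ (|x| - eta) ^ 2 / eta := by positivity
  have h2 : (|x| - eta) ^ 2 / eta = x ^ 2 / eta - 2 * |x| + eta := by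
    have : (|x| - eta) ^ 2 = x ^ 2 - 2 * |x| * eta + eta ^ 2 := by
      rw [sub_sq, sq_abs]
    rw [this]
    field_simp
  have h3 := abs_nonneg x
  linarith

theorem e3_const (hb : Bdd l) (r : ℝ) : e3 l (fun _ _ _ => r) = r := by
  rw [e3_last hb fun _ _ => r, e2_const hb]

theorem e4_const (hb : Bdd l) (r : ℝ) : e4 l (fun _ _ _ _ => r) = r := by
  rw [e4_last hb fun _ _ _ => r, e3_const hb]

theorem e3_abs_le (hb : Bdd l) (f : V → V → V → ℝ) {eta : ℝ} (h : 0 < eta) :
    e3 l (fun a b c => |f a b c|) ≤ eta + e3 l (fun a b c => f a b c ^ 2) / eta := by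
  have h1 : e3 l (fun a b c => |f a b c|) ≤
      e3 l (fun a b c => eta + (1 / eta) * f a b c ^ 2) :=
    e3_mono hb fun a b c => by
      have := abs_le_eta (x := f a b c) h
      rw [one_div, inv_mul_eq_div]
      exact this
  rw [e3_add, e3_const hb, e3_smul, one_div, inv_mul_eq_div] at h1
  exact h1

theorem e2_abs_le (hb : Bdd l) (f : V → V → ℝ) {eta : ℝ} (h : 0 < eta) :
    e2 (fun a b => |f a b|) ≤ eta + e2 (fun a b => f a b ^ 2) / eta := by
  have h1 : e2 (fun a b => |f a b|) ≤
      e2 (fun a b => eta + (1 / eta) * f a b ^ 2) :=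
    e2_mono hb fun a b => by
      have := abs_le_eta (x := f a b) h
      rw [one_div, inv_mul_eq_div]
      exact this
  rw [e2_add, e2_const hb, e2_smul, one_div, inv_mul_eq_div] at h1
  exact h1

/-- the average of u at a vertex -/
noncomputable def avg (S : V → V → ℝ) (v : V) : ℝ := (∑ x, if x ≠ v then S v x else 0) / NN V

theorem e2_eq_sum (h : V → V → ℝ) :
    e2 h = (∑ a, ∑ b, if b ≠ a then h a b else 0) / (nn V * NN V) := by
  unfold e2
  rw [Finset.sum_div]
  refine Finset.sum_congr rfl fun a _ => ?_
  rw [Finset.sum_div]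
  refine Finset.sum_congr rfl fun b _ => ?_
  unfold w0
  by_cases h1 : a = b
  · rw [if_neg (fun h' => h' h1), if_neg (fun h' => h' h1.symm)]
    ring
  · rw [if_pos h1, if_pos (fun h' => h1 h'.symm)]
    ring

/-- the deviation from the average at a vertex -/
theorem e2_dev (hb : Bdd l) (S : V → V → ℝ) (hS : ∀ a b, S a b = S b a) :
    e2 (fun a b => (S a b - avg S a) ^ 2) ≤ 3 * e3 l (fun a b c => (S a b - S b c) ^ 2) := by
  have hN := NN_pos hb
  have hn : 0 < nn V := by
    rw [nn_eq (V := V)]
    linarith
  have h1 : e3 l (fun a b c => (S a b - S b c) ^ 2) =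
      (∑ v, ∑ x, ∑ y, Q l v x y * (S v x - S v y) ^ 2) / (nn V * NN V) := by
    unfold e3
    rw [Finset.sum_comm, Finset.sum_div]
    refine Finset.sum_congr rfl fun v _ => ?_
    rw [Finset.sum_div]
    refine Finset.sum_congr rfl fun x _ => ?_
    rw [Finset.sum_div]
    refine Finset.sum_congr rfl fun y _ => ?_
    by_cases hx : x = v
    · rw [Q_eq_zero_left l hx]
      ring
    · unfold w0
      rw [if_pos hx]
      change 1 / (nn V * NN V) * Q l v x y * (S x v - S v y) ^ 2 = _
      rw [hS x v]
      ring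
  rw [e2_eq_sum, h1, ← mul_div_assoc]
  refine div_le_div_of_nonneg_right ?_ (by positivity)
  rw [Finset.mul_sum]
  refine Finset.sum_le_sum fun v _ => ?_
  refine poincare hb v (S v) (avg S v) ?_
  unfold avg
  rw [div_mul_cancel₀ _ hN.ne']

/-- the average over all edges -/
noncomputable def mean (S : V → V → ℝ) : ℝ := (∑ v, avg S v) / nn V

theorem e2_mean (hb : Bdd l) (S : V → V → ℝ) : e2 S = mean S := by
  have hN := NN_pos hb
  rw [e2_eq_sum]
  unfold mean avg
  rw [← Finset.sum_div, div_div, mul_comm (NN V)]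

theorem e2_left (hb : Bdd l) (f : V → ℝ) : e2 (fun a _ => f a) = (∑ a, f a) / nn V := by
  unfold e2
  simp_rw [← Finset.sum_mul, w0_sum hb]
  rw [Finset.sum_div]
  refine Finset.sum_congr rfl fun a _ => ?_
  ring

/-- the deviation from the mean -/
theorem e2_dev_mean (hb : Bdd l) (S : V → V → ℝ) (hS : ∀ a b, S a b = S b a) {D : ℝ}
    (hD : e2 (fun a b => (S a b - avg S a) ^ 2) ≤ D) :
    e2 (fun a b => (S a b - mean S) ^ 2) ≤ 6 * D := by
  have hN := NN_pos hb
  have hn1 := nn_eq (V := V)
  have hn : 0 < nn V := by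
    rw [hn1]
    linarith
  -- the two averages at the ends of an edge are close
  have h1 : e2 (fun a b => (avg S a - avg S b) ^ 2) ≤ 4 * D := by
    have h2 : e2 (fun a b => (avg S a - avg S b) ^ 2) ≤
        e2 (fun a b => 2 * (S a b - avg S a) ^ 2 + 2 * (S b a - avg S b) ^ 2) :=
      e2_mono hb fun a b => by
        rw [hS b a]
        nlinarith [sq_nonneg ((S a b - avg S a) + (S a b - avg S b))]
    rw [e2_add, e2_smul, e2_smul, e2_rev fun a b => (S a b - avg S a) ^ 2] at h2
    linarith
  have h3 : e2 (fun a b => (avg S a - avg S b) ^ 2) =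
      2 * (∑ a, (avg S a - mean S) ^ 2) / NN V := by
    rw [e2_eq_sum]
    have h4 : ∑ a, ∑ b, (if b ≠ a then (avg S a - avg S b) ^ 2 else 0) =
        ∑ a, ∑ b, (avg S a - avg S b) ^ 2 := by
      refine Finset.sum_congr rfl fun a _ => Finset.sum_congr rfl fun b _ => ?_
      by_cases hab : b = a
      · rw [if_neg (fun h' => h' hab), hab]
        ring
      · rw [if_pos hab]
    have hM : mean S * nn V = ∑ v, avg S v := by
      unfold mean
      rw [div_mul_cancel₀ _ hn.ne']
    have hcard : ((Fintype.card V : ℕ) : ℝ) = nn V := rfl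
    have h5 : ∑ a, ∑ b, (avg S a - avg S b) ^ 2 =
        2 * nn V * ∑ a, avg S a ^ 2 - 2 * (∑ a, avg S a) ^ 2 := by
      have h6 : ∀ a b, (avg S a - avg S b) ^ 2 = avg S a ^ 2 - 2 * avg S a * avg S b +
          avg S b ^ 2 := fun a b => by ring
      simp_rw [h6, Finset.sum_add_distrib, Finset.sum_sub_distrib, ← Finset.mul_sum,
        Finset.sum_const, Finset.card_univ, nsmul_eq_mul, hcard]
      rw [← Finset.mul_sum, ← Finset.sum_mul, ← Finset.mul_sum]
      ring
    have h7 : ∑ a, (avg S a - mean S) ^ 2 = ∑ a, avg S a ^ 2 - nn V * mean S ^ 2 := by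
      have h8 : ∀ a, (avg S a - mean S) ^ 2 = avg S a ^ 2 - 2 * mean S * avg S a +
          mean S ^ 2 := fun a => by ring
      simp_rw [h8, Finset.sum_add_distrib, Finset.sum_sub_distrib, ← Finset.mul_sum,
        Finset.sum_const, Finset.card_univ, nsmul_eq_mul, hcard]
      rw [← hM]
      ring
    rw [h4, h5, h7, ← hM]
    field_simp
  have h9 : e2 (fun a _ => (avg S a - mean S) ^ 2) ≤ 2 * D := by
    rw [e2_left hb fun a => (avg S a - mean S) ^ 2]
    have h10 : 0 ≤ ∑ a, (avg S a - mean S) ^ 2 := Finset.sum_nonneg fun a _ => sq_nonneg _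
    rw [h3] at h1
    have h11 : (∑ a, (avg S a - mean S) ^ 2) / nn V ≤ (∑ a, (avg S a - mean S) ^ 2) / NN V := by
      refine div_le_div_of_nonneg_left h10 hN ?_
      rw [hn1]
      linarith
    have h12 : 2 * (∑ a, (avg S a - mean S) ^ 2) / NN V =
        2 * ((∑ a, (avg S a - mean S) ^ 2) / NN V) := by ring
    rw [h12] at h1
    linarith
  have h13 : e2 (fun a b => (S a b - mean S) ^ 2) ≤
      e2 (fun a b => 2 * (S a b - avg S a) ^ 2 + 2 * (avg S a - mean S) ^ 2) :=
    e2_mono hb fun a b => by
      nlinarith [sq_nonneg ((S a b - avg S a) - (avg S a - mean S))]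
  rw [e2_add, e2_smul, e2_smul] at h13
  linarith

/-- the core of the ergodicity argument -/
theorem core (hb : Bdd l) {A : V → V → V → V → Prop} (hrev : ∀ x y z w, A x y z w → A w z y x)
    {f h : V → V → V → V → ℝ} {del : ℝ} (hf0 : ∀ a b c d, 0 ≤ f a b c d)
    (hf1 : ∀ a b c d, f a b c d ≤ 1) (hA : ∀ a b c d, A a b c d → f a b c d = 0)
    (hhf : ∀ a b c d, h a b c d ≤ f a b c d) (hhU : ∀ a b c d, h a b c d ≤ U l f a b c d)
    (hdel : e4 l f - e4 l h ≤ del) {c0 eta : ℝ} (hc0 : 0 ≤ c0)
    (hc : c0 ≤ e4 l (fun a b c d => if A a b c d then 1 else 0)) (heta : 0 < eta) :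
    2 * e4 l f * c0 ≤ 8 * del + 3 * eta + 296 * del / eta := by
  -- g
  let g : V → V → ℝ := fun c d => ∑ y, Q l d c y * ∑ z, Q l y d z * f c d y z
  let Tg : V → V → ℝ := fun c d => ∑ y, Q l d c y * g d y
  have hg : ∀ a b c d, U l (U l f) a b c d = g c d := fun a b c d => rfl
  have hTg : ∀ a b c d, U l (U l (U l f)) a b c d = Tg c d := fun a b c d => rfl
  have hUf0 := U_nonneg hb hf0
  have hUf1 := U_le_one hb hf1
  have hg0 : ∀ c d, 0 ≤ g c d := fun c d => (hg c c c d) ▸ U_nonneg hb hUf0 c c c d
  have hg1 : ∀ c d, g c d ≤ 1 := fun c d => (hg c c c d) ▸ U_le_one hb hUf1 c c c d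
  -- f and U f are close
  have h1 : e4 l (fun a b c d => |f a b c d - U l f a b c d|) ≤ 2 * del := by
    have h2 : e4 l (fun a b c d => |f a b c d - U l f a b c d|) ≤
        e4 l (fun a b c d => (f a b c d - h a b c d) + (U l f a b c d - h a b c d)) :=
      e4_mono hb fun a b c d => by
        have h3 := hhf a b c d
        have h4 := hhU a b c d
        rw [abs_le]
        constructor <;> linarith
    rw [e4_add, e4_sub, e4_sub] at h2
    have h3 : e4 l (fun a b c d => U l f a b c d) = e4 l f := e4_U hb f
    have h3' : e4 l (fun a b c d => h a b c d) = e4 l h := rfl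
    have h3'' : e4 l (fun a b c d => f a b c d) = e4 l f := rfl
    rw [h3] at h2
    linarith
  have hstep : ∀ F G : V → V → V → V → ℝ, ∀ D : ℝ,
      e4 l (fun a b c d => |F a b c d - G a b c d|) ≤ D →
      e4 l (fun a b c d => |U l F a b c d - U l G a b c d|) ≤ D := by
    intro F G D hD
    refine le_trans ?_ hD
    have h4 := e4_U hb fun a b c d => |F a b c d - G a b c d|
    rw [← h4]
    refine e4_mono hb fun a b c d => ?_
    rw [U_sub]
    exact U_abs hb _ a b c d
  have h5 := hstep f (U l f) _ h1
  have h6 := hstep (U l f) (U l (U l f)) _ h5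
  have h7 : e4 l (fun a b c d => |f a b c d - g c d|) ≤ 4 * del := by
    have h8 : e4 l (fun a b c d => |f a b c d - g c d|) ≤
        e4 l (fun a b c d => |f a b c d - U l f a b c d| +
          |U l f a b c d - U l (U l f) a b c d|) :=
      e4_mono hb fun a b c d => by
        rw [hg]
        exact abs_sub_le _ _ _
    rw [e4_add] at h8
    linarith
  have h9 : e2 (fun a b => |g a b - Tg a b|) ≤ 2 * del := by
    have h10 : e4 l (fun a b c d => |U l (U l f) a b c d - U l (U l (U l f)) a b c d|) =
        e2 (fun a b => |g a b - Tg a b|) := by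
      have h11 : e4 l (fun a b c d => |U l (U l f) a b c d - U l (U l (U l f)) a b c d|) =
          e4 l (fun _ _ c d => |g c d - Tg c d|) := rfl
      rw [h11, e4_first hb fun _ c d => |g c d - Tg c d|, e3_first hb fun c d => |g c d - Tg c d|]
    rw [← h10]
    exact h6
  have h12 : e3 l (fun a b c => (g a b - g b c) ^ 2) ≤ 4 * del := by
    rw [e3_diff_sq hb g]
    have h13 : e2 (fun a b => g a b * (g a b - ∑ c, Q l b a c * g b c)) ≤
        e2 (fun a b => |g a b - Tg a b|) :=
      e2_mono hb fun a b => by
        change g a b * (g a b - Tg a b) ≤ |g a b - Tg a b|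
        calc g a b * (g a b - Tg a b) ≤ g a b * |g a b - Tg a b| :=
              mul_le_mul_of_nonneg_left (le_abs_self _) (hg0 a b)
          _ ≤ 1 * |g a b - Tg a b| := mul_le_mul_of_nonneg_right (hg1 a b) (abs_nonneg _)
          _ = _ := one_mul _
    linarith
  -- S
  let S : V → V → ℝ := fun a b => g a b + g b a
  have hS : ∀ a b, S a b = S b a := fun a b => add_comm _ _
  have h14 : e3 l (fun a b c => (S a b - S b c) ^ 2) ≤ 16 * del := by
    have h15 : e3 l (fun a b c => (S a b - S b c) ^ 2) ≤
        e3 l (fun a b c => 2 * (g a b - g b c) ^ 2 + 2 * (g b a - g c b) ^ 2) :=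
      e3_mono hb fun a b c => by
        change ((g a b + g b a) - (g b c + g c b)) ^ 2 ≤ _
        nlinarith [sq_nonneg ((g a b - g b c) - (g b a - g c b))]
    rw [e3_add, e3_smul, e3_smul] at h15
    have h16 : e3 l (fun a b c => (g b a - g c b) ^ 2) =
        e3 l (fun a b c => (g a b - g b c) ^ 2) := by
      have h17 := e3_rev l fun a b c => (g b c - g a b) ^ 2
      rw [h17]
      unfold e3
      refine Finset.sum_congr rfl fun a _ => Finset.sum_congr rfl fun b _ =>
        Finset.sum_congr rfl fun c _ => ?_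
      ring
    rw [h16] at h15
    linarith
  have h18 := e2_dev hb S hS
  have h19 := e2_dev_mean hb S hS (D := 48 * del) (by linarith)
  -- the mean
  have hmean : mean S = 2 * e4 l f := by
    rw [← e2_mean hb S]
    have h20 : e2 S = e2 g + e2 (fun a b => g b a) := e2_add g fun a b => g b a
    have h21 : e2 (fun a b => g b a) = e2 g := e2_rev g
    have h22 : e2 g = e4 l f := by
      have h23 : e4 l (fun _ _ c d => g c d) = e2 g := by
        rw [e4_first hb fun _ c d => g c d, e3_first hb fun c d => g c d]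
      rw [← h23]
      have h24 : e4 l (fun _ _ c d => g c d) = e4 l (U l (U l f)) := rfl
      rw [h24, e4_U hb, e4_U hb]
    rw [h20, h21, h22]
    ring
  -- on A
  have h25 : e4 l (fun a b c d => if A a b c d then g c d else 0) ≤ 4 * del := by
    refine le_trans (e4_mono hb fun a b c d => ?_) h7
    split_ifs with hh
    · rw [hA a b c d hh, zero_sub, abs_neg]
      exact le_abs_self _
    · exact abs_nonneg _
  have h26 : e4 l (fun a b c d => if A a b c d then g b a else 0) ≤ 4 * del := by
    have h27 := e4_rev l fun a b c d => if A a b c d then g c d else 0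
    rw [← h27] at h25
    refine le_trans (e4_mono hb fun a b c d => ?_) h25
    by_cases hh : A a b c d
    · rw [if_pos hh, if_pos (hrev _ _ _ _ hh)]
    · rw [if_neg hh, if_neg (fun h' => hh (hrev _ _ _ _ h'))]
  have h28 : e3 l (fun a b c => |g a b - g b c|) ≤ eta + 4 * del / eta := by
    refine (e3_abs_le hb _ heta).trans ?_
    have := div_le_div_of_nonneg_right h12 heta.le
    linarith
  have h29 : e4 l (fun a b c d => if A a b c d then g a b else 0) ≤
      4 * del + 2 * (eta + 4 * del / eta) := by
    have h30 : e4 l (fun a b c d => if A a b c d then g a b else 0) ≤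
        e4 l (fun a b c d => (if A a b c d then g c d else 0) +
          (|g a b - g b c| + |g b c - g c d|)) :=
      e4_mono hb fun a b c d => by
        have h31 := le_abs_self (g a b - g b c)
        have h32 := le_abs_self (g b c - g c d)
        have h33 := abs_nonneg (g a b - g b c)
        have h34 := abs_nonneg (g b c - g c d)
        split_ifs <;> linarith
    rw [e4_add, e4_add, e4_last hb fun a b c => |g a b - g b c|,
      e4_first hb fun b c d => |g b c - g c d|] at h30
    linarith
  have h35 : e4 l (fun a b c d => if A a b c d then S a b else 0) ≤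
      8 * del + 2 * (eta + 4 * del / eta) := by
    have h36 : e4 l (fun a b c d => if A a b c d then S a b else 0) =
        e4 l (fun a b c d => (if A a b c d then g a b else 0) +
          (if A a b c d then g b a else 0)) := by
      congr 1
      funext a b c d
      split_ifs
      · rfl
      · ring
    rw [h36, e4_add]
    linarith
  have h37 : e2 (fun a b => |S a b - mean S|) ≤ eta + 288 * del / eta := by
    refine (e2_abs_le hb _ heta).trans ?_
    have := div_le_div_of_nonneg_right h19 heta.le
    have h38 : 6 * (48 * del) / eta = 288 * del / eta := by ring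
    linarith
  have h39 : mean S * e4 l (fun a b c d => if A a b c d then 1 else 0) ≤
      e4 l (fun a b c d => if A a b c d then S a b else 0) + e2 (fun a b => |S a b - mean S|) := by
    have h40 : e4 l (fun a b _ _ => |S a b - mean S|) = e2 (fun a b => |S a b - mean S|) := by
      rw [e4_last hb fun a b _ => |S a b - mean S|, e3_last hb fun a b => |S a b - mean S|]
    rw [← h40, ← e4_add, ← e4_smul]
    refine e4_mono hb fun a b c d => ?_
    have h41 := neg_abs_le (S a b - mean S)
    have h42 := abs_nonneg (S a b - mean S)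
    split_ifs <;> linarith
  have hfe : 0 ≤ e4 l f := e4_nonneg hb hf0
  have h43 : 2 * e4 l f * c0 ≤ mean S * e4 l (fun a b c d => if A a b c d then 1 else 0) := by
    rw [hmean]
    exact mul_le_mul_of_nonneg_left hc (by linarith)
  have h44 : 2 * (eta + 4 * del / eta) + (eta + 288 * del / eta) = 3 * eta + 296 * del / eta := by
    ring
  linarith

end Pool.H90BX.Fl46
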