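import Pool.Agent.H90.BX.Defs
import Pool.Agent.H46.BE.Join

set_option autoImplicit false

/-!
C1: the flow on the states given by a label system.
-/

namespace Pool.H90BX.Fl46

open Finset
open scoped Classical
open Pool.Agent.H46.BE (Fl)

variable {V : Type} [Fintype V] [DecidableEq V] {l : LS V}

theorem cnt_fiber (l : LS V) (v : V) (f : Lb → ℝ) :
    ∑ w, (if v ≠ w then f (l v w) else 0) = ∑ i, (cnt l v i : ℝ) * f i := by
  have h1 : ∀ i, (cnt l v i : ℝ) * f i = ∑ w, if w ≠ v ∧ l v w = i then f i else 0 := by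
    intro i
    rw [← Finset.sum_filter, Finset.sum_const, nsmul_eq_mul]
    rfl
  simp_rw [h1]
  rw [Finset.sum_comm]
  refine Finset.sum_congr rfl fun w _ => ?_
  by_cases h : v = w
  · rw [if_neg (fun h' => h' h)]
    refine (Finset.sum_eq_zero fun i _ => if_neg ?_).symm
    exact fun h' : _ ∧ _ => h'.1 h.symm
  · rw [if_pos h, Finset.sum_eq_single (l v w)]
    · rw [if_pos ⟨fun h' => h h'.symm, rfl⟩]
    · intro i _ hi
      exact if_neg fun h' : _ ∧ _ => hi h'.2.symm
    · intro h'
      exact absurd (Finset.mem_univ _) h'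

theorem cnt_sum4 (l : LS V) (v : V) :
    (cnt l v 0 : ℝ) + cnt l v 1 + cnt l v 2 + cnt l v 3 = NN V := by
  have h := cnt_fiber l v fun _ => 1
  rw [Fin.sum_univ_four] at h
  have h2 : ∑ w, (if v ≠ w then (1 : ℝ) else 0) = NN V := by
    have h3 : ∀ w, (if v ≠ w then (1 : ℝ) else 0) = 1 - if v = w then 1 else 0 := by
      intro w
      by_cases h : v = w
      · rw [if_neg (fun h' => h' h), if_pos h]
        ring
      · rw [if_pos h, if_neg h]
        ring
    simp_rw [h3]
    rw [Finset.sum_sub_distrib, Finset.sum_const, Finset.sum_ite_eq, if_pos (Finset.mem_univ v),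
      Finset.card_univ]
    unfold NN
    simp
  rw [h2] at h
  linarith

theorem cnt_sum_univ (l : LS V) (v : V) : ∑ i, (cnt l v i : ℝ) = NN V := by
  rw [Fin.sum_univ_four, cnt_sum4]

theorem T3_le {v : V} (h : T3 l v) (i : Lb) : 2 * (cnt l v i : ℝ) + 1 ≤ NN V := by
  have h := h.2 i
  unfold NN
  have h2 : (2 * (cnt l v i : ℝ) + 2) ≤ (Fintype.card V : ℝ) := by exact_mod_cast h
  linarith

theorem T3_three {v : V} (h : T3 l v) : (cnt l v 3 : ℝ) = 0 := by
  rw [h.1, Nat.cast_zero]

theorem T4_eq {v : V} (h : T4 l v) (i : Lb) : 4 * (cnt l v i : ℝ) = NN V := by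
  have h := h i
  unfold NN
  have h2 : (4 * (cnt l v i : ℝ) + 1) = (Fintype.card V : ℝ) := by exact_mod_cast h
  linarith

theorem not_T4_of_T3 {v : V} (hn : 3 ≤ Fintype.card V) (h : T3 l v) : ¬ T4 l v := fun h4 => by
  have h1 := h4 3
  rw [h.1] at h1
  omega

theorem NN_pos (hb : Bdd l) : 0 < NN V := by
  have h := hb.1
  have h2 : (3 : ℝ) ≤ (Fintype.card V : ℝ) := by exact_mod_cast h
  unfold NN
  linarith

theorem third_comm (i j : Lb) : third i j = third j i := by
  unfold third
  rw [sub_right_comm]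

theorem third_01 : third 0 1 = 2 := by decide
theorem third_02 : third 0 2 = 1 := by decide
theorem third_10 : third 1 0 = 2 := by decide
theorem third_12 : third 1 2 = 0 := by decide
theorem third_20 : third 2 0 = 1 := by decide
theorem third_21 : third 2 1 = 0 := by decide

theorem mm_symm (l : LS V) (v : V) (i j : Lb) : mm l v i j = mm l v j i := by
  by_cases h : i = j
  · rw [h]
  have h' : ¬ j = i := fun h' => h h'.symm
  unfold mm
  rw [if_neg h, if_neg h', third_comm j i]
  by_cases h4 : T4 l v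
  · simp only [if_pos h4]
  · simp only [if_neg h4]
    by_cases h3 : i = 3 ∨ j = 3
    · rw [if_pos h3, if_pos h3.symm]
    · rw [if_neg h3, if_neg (fun h5 => h3 h5.symm)]

theorem mm_nonneg (hb : Bdd l) (v : V) (i j : Lb) : 0 ≤ mm l v i j := by
  have hN := NN_pos hb
  unfold mm
  split_ifs with h1 h2 h3
  · exact le_rfl
  · linarith
  · exact le_rfl
  · rcases hb.2 v with h | h
    · have := T3_le h (third i j)
      linarith
    · exact absurd h h2

theorem mm_self (l : LS V) (v : V) (i : Lb) : mm l v i i = 0 := if_pos rfl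

theorem mm_T4 {v : V} (h : T4 l v) {i j : Lb} (hij : i ≠ j) : mm l v i j = NN V / 12 := by
  unfold mm
  rw [if_neg hij, if_pos h]

theorem mm_T3 (hb : Bdd l) {v : V} (h : T3 l v) {i j : Lb} (hij : i ≠ j) (hi : i ≠ 3)
    (hj : j ≠ 3) : mm l v i j = (NN V - 2 * cnt l v (third i j)) / 2 := by
  unfold mm
  rw [if_neg hij, if_neg (not_T4_of_T3 hb.1 h), if_neg (by rintro (h | h); exacts [hi h, hj h])]

theorem mm_T3_three (hb : Bdd l) {v : V} (h : T3 l v) (i : Lb) : mm l v i 3 = 0 := by
  unfold mm
  split_ifs with h1 h2 h3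
  · rfl
  · exact absurd h2 (not_T4_of_T3 hb.1 h)
  · rfl
  · exact absurd (Or.inr rfl) h3

/-- the row sums of the transition masses -/
theorem mm_sum (hb : Bdd l) (v : V) (i : Lb) : ∑ j, mm l v i j = cnt l v i := by
  rcases hb.2 v with h | h
  · have hs := cnt_sum4 l v
    have h3 := T3_three h
    rw [Fin.sum_univ_four, mm_T3_three hb h i]
    fin_cases i
    · simp only [Fin.zero_eta]
      rw [mm_self, mm_T3 hb h (by decide) (by decide) (by decide),
        mm_T3 hb h (by decide) (by decide) (by decide), third_01, third_02]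
      linarith
    · simp only [Fin.mk_one]
      rw [mm_self, mm_T3 hb h (by decide) (by decide) (by decide),
        mm_T3 hb h (by decide) (by decide) (by decide), third_10, third_12]
      linarith
    · simp only [Fin.reduceFinMk]
      rw [mm_self, mm_T3 hb h (by decide) (by decide) (by decide),
        mm_T3 hb h (by decide) (by decide) (by decide), third_20, third_21]
      linarith
    · simp only [Fin.reduceFinMk]
      rw [mm_symm l v 3 0, mm_symm l v 3 1, mm_symm l v 3 2, mm_T3_three hb h,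
        mm_T3_three hb h, mm_T3_three hb h, h3]
      ring
  · have h1 : ∀ j, mm l v i j = NN V / 12 - if i = j then NN V / 12 else 0 := by
      intro j
      by_cases hij : i = j
      · rw [if_pos hij, hij, mm_self]
        ring
      · rw [if_neg hij, mm_T4 h hij]
        ring
    simp_rw [h1]
    rw [Finset.sum_sub_distrib, Finset.sum_const, Finset.sum_ite_eq, if_pos (Finset.mem_univ i),
      Finset.card_univ, Fintype.card_fin]
    have h2 := T4_eq h i
    simp only [nsmul_eq_mul]
    push_cast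
    linarith

theorem mm_le_cnt (hb : Bdd l) (v : V) (i j : Lb) : mm l v i j ≤ cnt l v i := by
  rw [← mm_sum hb v i]
  exact Finset.single_le_sum (f := fun j => mm l v i j) (fun j _ => mm_nonneg hb v i j)
    (Finset.mem_univ j)

theorem mm_zero (hb : Bdd l) {v : V} {i : Lb} (h : cnt l v i = 0) (j : Lb) : mm l v i j = 0 := by
  have h1 := mm_le_cnt hb v i j
  rw [h, Nat.cast_zero] at h1
  exact le_antisymm h1 (mm_nonneg hb v i j)

theorem cnt_pos_of_ne (l : LS V) {v w : V} (h : v ≠ w) : 0 < cnt l v (l v w) := by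
  unfold cnt cls
  refine Finset.card_pos.2 ⟨w, ?_⟩
  rw [Finset.mem_filter]
  exact ⟨Finset.mem_univ w, fun h' => h h'.symm, rfl⟩

theorem tr_nonneg (hb : Bdd l) (v : V) (i k : Lb) : 0 ≤ tr l v i k :=
  div_nonneg (mm_nonneg hb v i k) (Nat.cast_nonneg _)

theorem tr_sum (hb : Bdd l) {v : V} {i : Lb} (h : 0 < cnt l v i) : ∑ k, tr l v i k = 1 := by
  unfold tr
  rw [← Finset.sum_div, mm_sum hb]
  exact div_self (by exact_mod_cast h.ne')

theorem cnt_tr (hb : Bdd l) (v : V) (k : Lb) :
    ∑ i, (cnt l v i : ℝ) * tr l v i k = cnt l v k := by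
  rw [← mm_sum hb v k]
  refine Finset.sum_congr rfl fun i _ => ?_
  unfold tr
  rw [mm_symm l v k i]
  by_cases h : cnt l v i = 0
  · rw [mm_zero hb h, zero_div, mul_zero]
  · exact mul_div_cancel₀ _ (by exact_mod_cast h)

/-- the transition masses between two classes -/
theorem mm_bound (hb : Bdd l) (v : V) (i k : Lb) :
    mm l v i k * NN V ≤ 4 * cnt l v k * cnt l v i := by
  have hN := NN_pos hb
  have hi0 : (0 : ℝ) ≤ cnt l v i := Nat.cast_nonneg _
  have hk0 : (0 : ℝ) ≤ cnt l v k := Nat.cast_nonneg _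
  by_cases hik : i = k
  · rw [hik, mm_self, zero_mul]
    positivity
  rcases hb.2 v with h | h
  · by_cases hi : i = 3
    · rw [hi, mm_symm, mm_T3_three hb h, zero_mul]
      positivity
    by_cases hk : k = 3
    · rw [hk, mm_T3_three hb h, zero_mul]
      positivity
    have key : ∀ a b c : ℝ, 0 ≤ a → 0 ≤ b → a + b + c = NN V → 2 * a + 1 ≤ NN V →
        2 * b + 1 ≤ NN V → 2 * c + 1 ≤ NN V → (NN V - 2 * c) / 2 * NN V ≤ 4 * b * a := by
      intro a b c ha hb' hs g0 g1 g2
      have hN : NN V ≤ 2 * (a + b) := by linarith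
      rcases le_total a b with hab | hab
      · nlinarith
      · nlinarith
    rw [mm_T3 hb h hik hi hk]
    have hs := cnt_sum4 l v
    have h3 := T3_three h
    have hc0 : (0 : ℝ) ≤ cnt l v 0 := Nat.cast_nonneg _
    have hc1 : (0 : ℝ) ≤ cnt l v 1 := Nat.cast_nonneg _
    have hc2 : (0 : ℝ) ≤ cnt l v 2 := Nat.cast_nonneg _
    have g0 := T3_le h 0
    have g1 := T3_le h 1
    have g2 := T3_le h 2
    fin_cases i <;> fin_cases k
    · exact absurd rfl hik
    · simp only [Fin.zero_eta, Fin.mk_one, third_01]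
      exact key _ _ _ hc0 hc1 (by linarith) g0 g1 g2
    · simp only [Fin.zero_eta, Fin.reduceFinMk, third_02]
      exact key _ _ _ hc0 hc2 (by linarith) g0 g2 g1
    · exact absurd rfl hk
    · simp only [Fin.zero_eta, Fin.mk_one, third_10]
      exact key _ _ _ hc1 hc0 (by linarith) g1 g0 g2
    · exact absurd rfl hik
    · simp only [Fin.mk_one, Fin.reduceFinMk, third_12]
      exact key _ _ _ hc1 hc2 (by linarith) g1 g2 g0
    · exact absurd rfl hk
    · simp only [Fin.zero_eta, Fin.reduceFinMk, third_20]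
      exact key _ _ _ hc2 hc0 (by linarith) g2 g0 g1
    · simp only [Fin.mk_one, Fin.reduceFinMk, third_21]
      exact key _ _ _ hc2 hc1 (by linarith) g2 g1 g0
    · exact absurd rfl hik
    · exact absurd rfl hk
    · exact absurd rfl hi
    · exact absurd rfl hi
    · exact absurd rfl hi
    · exact absurd rfl hi
  · have h1 := T4_eq h i
    have h2 := T4_eq h k
    rw [mm_T4 h hik]
    have h3 : 4 * (cnt l v k : ℝ) * cnt l v i = NN V * NN V / 4 := by
      have h4 : (cnt l v k : ℝ) = NN V / 4 := by linarith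
      have h5 : (cnt l v i : ℝ) = NN V / 4 := by linarith
      rw [h4, h5]
      ring
    rw [h3]
    nlinarith

theorem tr_le (hb : Bdd l) (v : V) (i k : Lb) : tr l v i k * NN V ≤ 4 * cnt l v k := by
  unfold tr
  have h := mm_bound hb v i k
  rcases Nat.eq_zero_or_pos (cnt l v i) with h0 | h0
  · rw [h0, Nat.cast_zero, div_zero, zero_mul]
    positivity
  · have h1 : (0 : ℝ) < cnt l v i := by exact_mod_cast h0
    rw [div_mul_eq_mul_div, div_le_iff₀ h1]
    exact h

theorem W_symm (l : LS V) (s t : St V) : W l s t = W l t s := by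
  unfold W
  by_cases h : s.1 = t.1
  · rw [if_neg (fun h' => h' h), if_neg (fun h' => h' h.symm)]
  · rw [if_pos h, if_pos (fun h' => h h'.symm)]
    ring

/-- the flow of a label system -/
noncomputable def flow (hb : Bdd l) (hn : 17 ≤ Fintype.card V) : Fl (St V) 17 where
  W := W l
  pi := pi l
  J := J l
  symm := W_symm l
  nonneg := by
    intro s t
    have hn' : (17 : ℝ) ≤ nn V := by
      unfold nn
      exact_mod_cast hn
    have hN : (0 : ℝ) ≤ NN V := by
      have : NN V = nn V - 1 := rfl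
      linarith
    unfold W
    split_ifs
    · have h1 := tr_nonneg hb s.1 (l s.1 t.1) s.2
      have h2 := tr_nonneg hb t.1 (l t.1 s.1) t.2
      have : 0 ≤ nn V := by linarith
      positivity
    · exact le_rfl
  row := by
    intro s
    rw [Fintype.sum_prod_type]
    have h1 : ∀ w, ∑ k, W l s (w, k) =
        if s.1 ≠ w then 1 / (nn V * NN V) * tr l s.1 (l s.1 w) s.2 else 0 := by
      intro w
      unfold W
      by_cases h : s.1 = w
      · refine (Finset.sum_eq_zero fun k _ => if_neg fun h' => h' h).trans ?_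
        rw [if_neg (fun h' => h' h)]
      · rw [if_pos h]
        have h2 : ∀ k, (if s.1 ≠ (w, k).1 then 1 / (nn V * NN V) *
            (tr l s.1 (l s.1 (w, k).1) s.2 * tr l (w, k).1 (l (w, k).1 s.1) (w, k).2) else 0) =
            1 / (nn V * NN V) * tr l s.1 (l s.1 w) s.2 * tr l w (l w s.1) k := by
          intro k
          rw [if_pos h]
          ring
        simp_rw [h2]
        rw [← Finset.mul_sum, tr_sum hb (cnt_pos_of_ne l (Ne.symm h)), mul_one]
    simp_rw [h1]
    rw [cnt_fiber l s.1 fun i => 1 / (nn V * NN V) * tr l s.1 i s.2]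
    have h3 := cnt_tr hb s.1 s.2
    unfold pi
    rw [← h3, Finset.sum_div]
    refine Finset.sum_congr rfl fun i _ => ?_
    ring
  tot := by
    have hn' : (17 : ℝ) ≤ nn V := by
      unfold nn
      exact_mod_cast hn
    have hN : (0 : ℝ) < NN V := by
      have : NN V = nn V - 1 := rfl
      linarith
    rw [Fintype.sum_prod_type]
    have h1 : ∀ v, ∑ k, pi l (v, k) = 1 / nn V := by
      intro v
      unfold pi
      rw [← Finset.sum_div]
      simp only
      rw [cnt_sum_univ l v]
      field_simp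
    simp_rw [h1]
    rw [Finset.sum_const, Finset.card_univ, nsmul_eq_mul]
    have h2 : ((Fintype.card V : ℕ) : ℝ) = nn V := rfl
    rw [h2]
    field_simp
  bd := by
    intro s t
    have hn' : (17 : ℝ) ≤ nn V := by
      unfold nn
      exact_mod_cast hn
    have hNn : NN V = nn V - 1 := rfl
    have hN : (0 : ℝ) < NN V := by linarith
    have hs : (0 : ℝ) ≤ cnt l s.1 s.2 := Nat.cast_nonneg _
    have ht : (0 : ℝ) ≤ cnt l t.1 t.2 := Nat.cast_nonneg _
    unfold W pi
    split_ifs
    · have h1 := tr_le hb s.1 (l s.1 t.1) s.2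
      have h2 := tr_le hb t.1 (l t.1 s.1) t.2
      have h1' := tr_nonneg hb s.1 (l s.1 t.1) s.2
      have h2' := tr_nonneg hb t.1 (l t.1 s.1) t.2
      set a := tr l s.1 (l s.1 t.1) s.2
      set b := tr l t.1 (l t.1 s.1) t.2
      set cs := (cnt l s.1 s.2 : ℝ)
      set ct := (cnt l t.1 t.2 : ℝ)
      have h3 : (a * NN V) * (b * NN V) ≤ (4 * cs) * (4 * ct) :=
        mul_le_mul h1 h2 (by positivity) (by linarith)
      have h4 : 17 * (cs / (nn V * NN V) * (ct / (nn V * NN V))) =
          (17 * cs * ct) / (nn V * NN V) ^ 2 := by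
        field_simp
      have h5 : 1 / (nn V * NN V) * (a * b) = (a * b * (nn V * NN V)) / (nn V * NN V) ^ 2 := by
        have : nn V ≠ 0 := by linarith
        field_simp
      rw [h4, h5]
      refine div_le_div_of_nonneg_right ?_ (sq_nonneg _)
      -- a b n N ≤ 17 cs ct, from a b N^2 ≤ 16 cs ct and 16 n ≤ 17 N
      have h6 : (a * b * (nn V * NN V)) * NN V ≤ (17 * cs * ct) * NN V := by
        calc (a * b * (nn V * NN V)) * NN V = nn V * ((a * NN V) * (b * NN V)) := by ring
          _ ≤ nn V * ((4 * cs) * (4 * ct)) := mul_le_mul_of_nonneg_left h3 (by linarith)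
          _ = (16 * nn V) * (cs * ct) := by ring
          _ ≤ (17 * NN V) * (cs * ct) := by
              refine mul_le_mul_of_nonneg_right ?_ (by positivity)
              linarith
          _ = (17 * cs * ct) * NN V := by ring
      exact le_of_mul_le_mul_right h6 hN
    · have : 0 < nn V := by linarith
      positivity
  Jsymm := by
    intro s t h
    exact ⟨fun h' => h.1 h'.symm, h.2.2, h.2.1⟩
  Jsup := by
    intro s t h
    unfold W
    by_cases h1 : s.1 = t.1
    · exact if_neg fun h' => h' h1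
    · rw [if_pos h1]
      by_cases h2 : l s.1 t.1 = s.2
      · have : tr l s.1 (l s.1 t.1) s.2 = 0 := by
          unfold tr
          rw [h2, mm_self, zero_div]
        rw [this]
        ring
      · by_cases h3 : l t.1 s.1 = t.2
        · have : tr l t.1 (l t.1 s.1) t.2 = 0 := by
            unfold tr
            rw [h3, mm_self, zero_div]
          rw [this]
          ring
        · exact absurd ⟨h1, h2, h3⟩ h

theorem flow_mu1 (hb : Bdd l) (hn : 17 ≤ Fintype.card V) (s t : St V) :
    (flow hb hn).mu1 s t = mu1 l s t := rfl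

theorem flow_mass (hb : Bdd l) (hn : 17 ≤ Fintype.card V) (P P' : St V → Prop) :
    mass l P P' = (flow hb hn).w (univ.filter P) (univ.filter P') := by
  unfold mass Fl.w Fl.r
  rw [Finset.sum_filter]
  refine Finset.sum_congr rfl fun s _ => ?_
  by_cases h : P s
  · rw [if_pos h, Finset.sum_filter]
    refine Finset.sum_congr rfl fun t _ => ?_
    by_cases h' : P' t
    · rw [if_pos ⟨h, h'⟩, if_pos h']
      rfl
    · rw [if_neg (fun h'' : _ ∧ _ => h' h''.2), if_neg h']
  · rw [if_neg h]
    exact Finset.sum_eq_zero fun t _ => if_neg fun h'' : _ ∧ _ => h h''.1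

theorem flow_nb (hb : Bdd l) (hn : 17 ≤ Fintype.card V) (c : ℝ) (s : St V) :
    univ.filter (JG l c (s, univ)) = (flow hb hn).nb c s := by
  ext y
  unfold Fl.nb
  rw [Finset.mem_filter, Finset.mem_filter]
  constructor
  · intro h
    exact ⟨h.1, h.2.1, h.2.2.2⟩
  · intro h
    exact ⟨h.1, h.2.1, Finset.mem_univ _, h.2.2⟩

theorem flow_lay (hb : Bdd l) (hn : 17 ≤ Fintype.card V) (c eta : ℝ) (t : Tok V) (k : ℕ) :
    univ.filter (G l c eta t k) = (flow hb hn).lay c eta (univ.filter (JG l c t)) k := by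
  induction k with
  | zero =>
    ext s
    rw [Finset.mem_filter, Fl.mem_lay_zero]
    unfold G
    rw [flow_mass hb hn, flow_nb hb hn]
    exact ⟨fun h => h.2, fun h => ⟨Finset.mem_univ s, h⟩⟩
  | succ k ih =>
    ext s
    have hG : G l c eta t (k + 1) s ↔
        (G l c eta t k s ∨ eta ≤ mass l (JG l c (s, univ)) (G l c eta t k)) := Iff.rfl
    rw [Finset.mem_filter, Fl.mem_lay_succ, ← ih, Finset.mem_filter, hG, flow_mass hb hn,
      flow_nb hb hn]
    constructor
    · rintro ⟨h1, h2 | h2⟩
      · exact Or.inl ⟨h1, h2⟩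
      · exact Or.inr h2
    · rintro (h2 | h2)
      · exact ⟨h2.1, Or.inl h2.2⟩
      · exact ⟨Finset.mem_univ s, Or.inr h2⟩

/-! the two large classes -/

theorem sort_sum (l : LS V) (v : V) :
    (cnt l v (mx l v) : ℝ) + cnt l v (md l v) + cnt l v (mn l v) + cnt l v (ml l v) = NN V := by
  rw [← cnt_sum4 l v]
  have h := Equiv.sum_comp (exists_sort l v).choose fun i => (cnt l v i : ℝ)
  rw [Fin.sum_univ_four, Fin.sum_univ_four] at h
  exact h

theorem md_le_mx (l : LS V) (v : V) : cnt l v (md l v) ≤ cnt l v (mx l v) :=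
  (exists_sort l v).choose_spec.1

theorem mn_le_md (l : LS V) (v : V) : cnt l v (mn l v) ≤ cnt l v (md l v) :=
  (exists_sort l v).choose_spec.2.1

theorem ml_le_mn (l : LS V) (v : V) : cnt l v (ml l v) ≤ cnt l v (mn l v) :=
  (exists_sort l v).choose_spec.2.2

theorem eq_sort (l : LS V) (v : V) (i : Lb) :
    i = mx l v ∨ i = md l v ∨ i = mn l v ∨ i = ml l v := by
  obtain ⟨j, rfl⟩ := (exists_sort l v).choose.surjective i
  fin_cases j
  · exact Or.inl rfl
  · exact Or.inr (Or.inl rfl)
  · exact Or.inr (Or.inr (Or.inl rfl))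
  · exact Or.inr (Or.inr (Or.inr rfl))

theorem cnt_ml_le (l : LS V) (v : V) (i : Lb) : cnt l v (ml l v) ≤ cnt l v i := by
  have h1 := md_le_mx l v
  have h2 := mn_le_md l v
  have h3 := ml_le_mn l v
  rcases eq_sort l v i with h | h | h | h <;> rw [h] <;> omega

theorem T3_ml {v : V} (h : T3 l v) : cnt l v (ml l v) = 0 := by
  have h1 := cnt_ml_le l v 3
  rw [h.1] at h1
  omega

theorem cnt_md_ge (hb : Bdd l) (v : V) : NN V ≤ 4 * cnt l v (md l v) := by
  rcases hb.2 v with h | h
  · have h1 := sort_sum l v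
    have h2 : (cnt l v (mn l v) : ℝ) ≤ cnt l v (md l v) := by exact_mod_cast mn_le_md l v
    have h3 := T3_le h (mx l v)
    rw [T3_ml h, Nat.cast_zero] at h1
    linarith
  · exact (T4_eq h _).ge

theorem cnt_mx_ge (hb : Bdd l) (v : V) : NN V ≤ 4 * cnt l v (mx l v) := by
  have h2 : (cnt l v (md l v) : ℝ) ≤ cnt l v (mx l v) := by exact_mod_cast md_le_mx l v
  have h3 := cnt_md_ge hb v
  linarith

end Pool.H90BX.Fl46
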