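import Pool.Agent.H46.BX.Win

set_option autoImplicit false

/-!
Marginals of the path measure.
-/

namespace Pool.H90BX.Fl46

open Finset
open scoped Classical

variable {V : Type} [Fintype V] [DecidableEq V] {l : LS V}

theorem nn_eq : nn V = NN V + 1 := by
  unfold nn NN
  ring

theorem w0_sum (hb : Bdd l) (x : V) : ∑ y : V, w0 x y = 1 / nn V := by
  have hN := NN_pos hb
  have hn := nn_eq (V := V)
  have h3 : ∀ y : V, w0 x y = 1 / (nn V * NN V) - if x = y then 1 / (nn V * NN V) else 0 := by
    intro y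
    unfold w0
    by_cases h : x = y
    · rw [if_neg (fun h' => h' h), if_pos h]
      ring
    · rw [if_pos h, if_neg h]
      ring
  simp_rw [h3]
  rw [Finset.sum_sub_distrib, Finset.sum_const, Finset.sum_ite_eq, if_pos (Finset.mem_univ x),
    Finset.card_univ, nsmul_eq_mul]
  have h4 : ((Fintype.card V : ℕ) : ℝ) = nn V := rfl
  rw [h4]
  have h5 : nn V ≠ 0 := by rw [hn]; positivity
  field_simp
  rw [hn]
  ring

theorem sum_two (G : (Fin 2 → V) → ℝ) :
    ∑ P : Fin 2 → V, G P = ∑ x : V, ∑ y : V, G ![x, y] := by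
  rw [← (finTwoArrowEquiv V).symm.sum_comp, Fintype.sum_prod_type]
  rfl

theorem mu_two_eq (l : LS V) (x y : V) : mu l 2 ![x, y] = w0 x y := by
  rw [mu_eq]
  unfold mup
  simp
  rfl

/-- the law of one vertex -/
theorem marg1 (hb : Bdd l) (L : ℕ) [NeZero L] (hL : 2 ≤ L) {a : ℕ} (ha : a < L) (v : V) :
    ∑ P : Fin L → V, (if pt P a = v then mu l L P else 0) = 1 / nn V := by
  by_cases h : a + 2 ≤ L
  · have h1 := mu_window_d hb 2 le_rfl (fun x : Fin 2 → V => if x 0 = v then (1 : ℝ) else 0) a
      (L - 2 - a) L (by omega)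
    have h2 : ∑ P : Fin L → V, (if pt P a = v then mu l L P else 0) =
        ∑ P : Fin L → V, mu l L P * (if pt P (a + ((0 : Fin 2) : ℕ)) = v then 1 else 0) := by
      refine Finset.sum_congr rfl fun P _ => ?_
      have : a + ((0 : Fin 2) : ℕ) = a := rfl
      rw [this]
      split_ifs
      · ring
      · ring
    rw [h2]
    refine h1.trans ?_
    rw [sum_two]
    have h3 : ∀ x : V, ∑ y : V, mu l 2 ![x, y] * (if (![x, y] : Fin 2 → V) 0 = v then 1 else 0) =
        if x = v then 1 / nn V else 0 := by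
      intro x
      have h4 : ∀ y : V, mu l 2 ![x, y] * (if (![x, y] : Fin 2 → V) 0 = v then 1 else 0) =
          (if x = v then 1 else 0) * w0 x y := by
        intro y
        rw [mu_two_eq, mul_comm]
        rfl
      simp_rw [h4]
      rw [← Finset.mul_sum, w0_sum hb]
      split_ifs <;> simp
    simp_rw [h3]
    rw [Finset.sum_ite_eq', if_pos (Finset.mem_univ v)]
  · obtain ⟨b, rfl⟩ : ∃ b, a = b + 1 := ⟨a - 1, by omega⟩
    have h1 := mu_window_d hb 2 le_rfl (fun x : Fin 2 → V => if x 1 = v then (1 : ℝ) else 0) b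
      (L - 2 - b) L (by omega)
    have h2 : ∑ P : Fin L → V, (if pt P (b + 1) = v then mu l L P else 0) =
        ∑ P : Fin L → V, mu l L P * (if pt P (b + ((1 : Fin 2) : ℕ)) = v then 1 else 0) := by
      refine Finset.sum_congr rfl fun P _ => ?_
      have : b + ((1 : Fin 2) : ℕ) = b + 1 := rfl
      rw [this]
      split_ifs
      · ring
      · ring
    rw [h2]
    refine h1.trans ?_
    rw [sum_two, Finset.sum_comm]
    have h3 : ∀ y : V, ∑ x : V, mu l 2 ![x, y] * (if (![x, y] : Fin 2 → V) 1 = v then 1 else 0) =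
        if y = v then 1 / nn V else 0 := by
      intro y
      have h4 : ∀ x : V, mu l 2 ![x, y] * (if (![x, y] : Fin 2 → V) 1 = v then 1 else 0) =
          (if y = v then 1 else 0) * w0 y x := by
        intro x
        rw [mu_two_eq, mul_comm, w0_symm]
        rfl
      simp_rw [h4]
      rw [← Finset.mul_sum, w0_sum hb]
      split_ifs <;> simp
    simp_rw [h3]
    rw [Finset.sum_ite_eq', if_pos (Finset.mem_univ v)]

/-- first and last vertex of a path -/
theorem marg_ends (hb : Bdd l) (w : ℕ) [NeZero w] (hw : 2 ≤ w) (u v : V) :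
    ∑ x : Fin w → V, mu l w x * (if pt x 0 = u ∧ pt x (w - 1) = v then 1 else 0) ≤
      4 / (nn V * NN V) := by
  have hN := NN_pos hb
  have hn : 0 < nn V := by
    rw [nn_eq (V := V)]
    linarith
  rcases Nat.lt_or_ge w 3 with h | h
  · obtain rfl : w = 2 := by omega
    rw [sum_two]
    have h1 : ∀ x y : V, mu l 2 ![x, y] *
        (if pt (![x, y] : Fin 2 → V) 0 = u ∧ pt (![x, y] : Fin 2 → V) (2 - 1) = v then 1 else 0) =
        if x = u then (if y = v then w0 x y else 0) else 0 := by
      intro x y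
      rw [mu_two_eq]
      have h2 : pt (![x, y] : Fin 2 → V) 0 = x := rfl
      have h3 : pt (![x, y] : Fin 2 → V) (2 - 1) = y := rfl
      rw [h2, h3]
      by_cases hx : x = u
      · by_cases hy : y = v
        · rw [if_pos ⟨hx, hy⟩, if_pos hx, if_pos hy, mul_one]
        · rw [if_neg (fun h' => hy h'.2), if_pos hx, if_neg hy, mul_zero]
      · rw [if_neg (fun h' => hx h'.1), if_neg hx, mul_zero]
    simp_rw [h1]
    have h2 : ∀ x : V, ∑ y : V, (if x = u then (if y = v then w0 x y else 0) else 0) =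
        if x = u then w0 x v else 0 := by
      intro x
      split_ifs
      · rw [Finset.sum_ite_eq', if_pos (Finset.mem_univ v)]
      · exact Finset.sum_const_zero
    simp_rw [h2]
    rw [Finset.sum_ite_eq', if_pos (Finset.mem_univ u)]
    unfold w0
    split_ifs
    · exact div_le_div_of_nonneg_right (by norm_num) (by positivity)
    · positivity
  · obtain ⟨k, rfl⟩ : ∃ k, w = k + 3 := ⟨w - 3, by omega⟩
    rw [sum_snoc]
    have h1 : ∀ P : Fin (k + 2) → V, ∑ y : V, mu l (k + 3) (Fin.snoc P y) *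
        (if pt (Fin.snoc P y : Fin (k + 3) → V) 0 = u ∧
          pt (Fin.snoc P y : Fin (k + 3) → V) (k + 3 - 1) = v then 1 else 0) ≤
        (4 / NN V) * (if pt P 0 = u then mu l (k + 2) P else 0) := by
      intro P
      have h2 : ∀ y : V, mu l (k + 3) (Fin.snoc P y) *
          (if pt (Fin.snoc P y : Fin (k + 3) → V) 0 = u ∧
          pt (Fin.snoc P y : Fin (k + 3) → V) (k + 3 - 1) = v then 1 else 0) =
          if y = v then (if pt P 0 = u then mu l (k + 2) P * Q l (pt P (k + 1)) (pt P k) y
            else 0) else 0 := by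
        intro y
        have h3 : pt (Fin.snoc P y : Fin (k + 3) → V) (k + 3 - 1) = y := pt_snoc_last P y
        rw [mu_snoc, pt_snoc_lt P y (by omega : 0 < k + 2), h3]
        by_cases hy : y = v
        · by_cases hx : pt P 0 = u
          · rw [if_pos ⟨hx, hy⟩, if_pos hy, if_pos hx, mul_one]
          · rw [if_neg (fun h' => hx h'.1), if_pos hy, if_neg hx, mul_zero]
        · rw [if_neg (fun h' => hy h'.2), if_neg hy, mul_zero]
      simp_rw [h2]
      rw [Finset.sum_ite_eq', if_pos (Finset.mem_univ v)]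
      split_ifs
      · have h4 := Q_le hb (pt P (k + 1)) (pt P k) v
        have h5 := mu_nonneg hb (k + 2) P
        have h6 := mul_le_mul_of_nonneg_left h4 h5
        linarith
      · rw [mul_zero]
    refine (Finset.sum_le_sum fun P _ => h1 P).trans (le_of_eq ?_)
    rw [← Finset.mul_sum, marg1 hb (k + 2) (by omega) (by omega) u]
    field_simp

/-- the law of two different vertices -/
theorem marg2 (hb : Bdd l) (L : ℕ) [NeZero L] {a b : ℕ} (hab : a < b) (hbL : b < L)
    (u v : V) :
    ∑ P : Fin L → V, (if pt P a = u ∧ pt P b = v then mu l L P else 0) ≤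
      4 / (nn V * NN V) := by
  obtain ⟨c, rfl⟩ : ∃ c, b = a + c + 1 := ⟨b - a - 1, by omega⟩
  have : NeZero (c + 2) := ⟨by omega⟩
  have h1 := mu_window_d hb (c + 2) (by omega)
    (fun x : Fin (c + 2) → V => if pt x 0 = u ∧ pt x (c + 2 - 1) = v then (1 : ℝ) else 0) a
    (L - (c + 2) - a) L (by omega)
  have h2 : ∑ P : Fin L → V, (if pt P a = u ∧ pt P (a + c + 1) = v then mu l L P else 0) =
      ∑ P : Fin L → V, mu l L P *
        (if pt (fun i : Fin (c + 2) => pt P (a + (i : ℕ))) 0 = u ∧
          pt (fun i : Fin (c + 2) => pt P (a + (i : ℕ))) (c + 2 - 1) = v then 1 else 0) := by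
    refine Finset.sum_congr rfl fun P _ => ?_
    rw [pt_lt (fun i : Fin (c + 2) => pt P (a + (i : ℕ))) (by omega : 0 < c + 2),
      pt_lt (fun i : Fin (c + 2) => pt P (a + (i : ℕ))) (by omega : c + 2 - 1 < c + 2)]
    have h3 : a + (((⟨c + 2 - 1, by omega⟩ : Fin (c + 2)) : ℕ)) = a + c + 1 := rfl
    have h4 : a + (((⟨0, by omega⟩ : Fin (c + 2)) : ℕ)) = a := rfl
    rw [h3, h4]
    split_ifs
    · ring
    · ring
  rw [h2]
  exact h1.le.trans (marg_ends hb (c + 2) (by omega) u v)

end Pool.H90BX.Fl46
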