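import Pool.Agent.H46.BX.Marg

set_option autoImplicit false

/-!
B4, part 1: expectations of functions of two, three, four consecutive vertices; the operator U.
-/

namespace Pool.H90BX.Fl46

open Finset
open scoped Classical

variable {V : Type} [Fintype V] [DecidableEq V] {l : LS V}

/-- expectation over an edge -/
noncomputable def e2 (h : V → V → ℝ) : ℝ := ∑ a, ∑ b, w0 a b * h a b

/-- expectation over a path of three vertices -/
noncomputable def e3 (l : LS V) (h : V → V → V → ℝ) : ℝ :=
  ∑ a, ∑ b, ∑ c, w0 a b * Q l b a c * h a b c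

/-- expectation over a path of four vertices -/
noncomputable def e4 (l : LS V) (h : V → V → V → V → ℝ) : ℝ :=
  ∑ a, ∑ b, ∑ c, ∑ d, mu4 l a b c d * h a b c d

theorem w0_nonneg (hb : Bdd l) (x y : V) : 0 ≤ w0 x y := by
  have hN := NN_pos hb
  have hn : 0 < nn V := by
    rw [nn_eq (V := V)]
    linarith
  unfold w0
  split_ifs
  · positivity
  · exact le_rfl

theorem mu4_eq (l : LS V) (a b c d : V) : mu4 l a b c d = w0 b c * Q l b a c * Q l c b d := rfl

theorem mu4_eq' (l : LS V) (a b c d : V) : mu4 l a b c d = w0 a b * Q l b a c * Q l c b d := by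
  rw [mu4_eq, ← w0_Q l a b c]

theorem mu4_nonneg (hb : Bdd l) (a b c d : V) : 0 ≤ mu4 l a b c d := by
  rw [mu4_eq]
  exact mul_nonneg (mul_nonneg (w0_nonneg hb b c) (Q_nonneg hb _ _ _)) (Q_nonneg hb _ _ _)

theorem mu4_rev (l : LS V) (a b c d : V) : mu4 l a b c d = mu4 l d c b a := by
  rw [mu4_eq, mu4_eq, w0_symm b c, Q_symm l b a c, Q_symm l c b d]
  ring

theorem w0_mul_sum (hb : Bdd l) (b c : V) : w0 b c * ∑ d, Q l c b d = w0 b c := by
  by_cases h : b = c
  · unfold w0
    rw [if_neg (fun h' => h' h), zero_mul]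
  · rw [Q_sum hb h, mul_one]

theorem w0_mul_sum' (hb : Bdd l) (b c : V) : w0 b c * ∑ a, Q l b a c = w0 b c := by
  by_cases h : b = c
  · unfold w0
    rw [if_neg (fun h' => h' h), zero_mul]
  · rw [Q_sum' hb (fun h' => h h'.symm), mul_one]

theorem e4_last (hb : Bdd l) (h : V → V → V → ℝ) : e4 l (fun a b c _ => h a b c) = e3 l h := by
  unfold e4 e3
  refine Finset.sum_congr rfl fun a _ => Finset.sum_congr rfl fun b _ =>
    Finset.sum_congr rfl fun c _ => ?_
  calc ∑ d, mu4 l a b c d * h a b c = (w0 b c * ∑ d, Q l c b d) * Q l b a c * h a b c := by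
        rw [Finset.mul_sum, Finset.sum_mul, Finset.sum_mul]
        refine Finset.sum_congr rfl fun d _ => ?_
        rw [mu4_eq]
        ring
    _ = w0 a b * Q l b a c * h a b c := by rw [w0_mul_sum hb, w0_Q]

theorem e3_last (hb : Bdd l) (h : V → V → ℝ) : e3 l (fun a b _ => h a b) = e2 h := by
  unfold e3 e2
  refine Finset.sum_congr rfl fun a _ => Finset.sum_congr rfl fun b _ => ?_
  calc ∑ c, w0 a b * Q l b a c * h a b = (w0 a b * ∑ c, Q l b a c) * h a b := by
        rw [Finset.mul_sum, Finset.sum_mul]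
    _ = w0 a b * h a b := by rw [w0_mul_sum hb]

theorem e3_rev (l : LS V) (h : V → V → V → ℝ) : e3 l (fun a b c => h c b a) = e3 l h := by
  unfold e3
  have h1 : ∀ (F : V → V → V → ℝ), ∑ a, ∑ b, ∑ c, F a b c = ∑ c, ∑ b, ∑ a, F a b c := by
    intro F
    rw [Finset.sum_comm]
    simp_rw [Finset.sum_comm (s := univ) (t := univ) (f := fun a c => F a _ c)]
    rw [Finset.sum_comm]
  rw [h1]
  refine Finset.sum_congr rfl fun a _ => Finset.sum_congr rfl fun b _ =>
    Finset.sum_congr rfl fun c _ => ?_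
  rw [Q_symm l b c a, w0_symm c b, ← w0_Q l a b c]

theorem e4_rev (l : LS V) (h : V → V → V → V → ℝ) :
    e4 l (fun a b c d => h d c b a) = e4 l h := by
  unfold e4
  have h1 : ∀ (F : V → V → V → V → ℝ), ∑ a, ∑ b, ∑ c, ∑ d, F a b c d =
      ∑ d, ∑ c, ∑ b, ∑ a, F a b c d := by
    intro F
    calc ∑ a, ∑ b, ∑ c, ∑ d, F a b c d = ∑ x : V × V × V × V, F x.1 x.2.1 x.2.2.1 x.2.2.2 := by
          simp only [Fintype.sum_prod_type]
      _ = ∑ x : V × V × V × V, F x.2.2.2 x.2.2.1 x.2.1 x.1 := by
          let e : (V × V × V × V) ≃ (V × V × V × V) :=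
            { toFun := fun x => (x.2.2.2, x.2.2.1, x.2.1, x.1)
              invFun := fun x => (x.2.2.2, x.2.2.1, x.2.1, x.1)
              left_inv := fun x => rfl
              right_inv := fun x => rfl }
          exact (e.sum_comp fun x => F x.1 x.2.1 x.2.2.1 x.2.2.2).symm
      _ = _ := by simp only [Fintype.sum_prod_type]
  rw [h1]
  refine Finset.sum_congr rfl fun a _ => Finset.sum_congr rfl fun b _ =>
    Finset.sum_congr rfl fun c _ => Finset.sum_congr rfl fun d _ => ?_
  rw [← mu4_rev l a b c d]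

theorem e2_rev (h : V → V → ℝ) : e2 (fun a b => h b a) = e2 h := by
  unfold e2
  rw [Finset.sum_comm]
  refine Finset.sum_congr rfl fun a _ => Finset.sum_congr rfl fun b _ => ?_
  rw [w0_symm]

theorem e4_first (hb : Bdd l) (h : V → V → V → ℝ) : e4 l (fun _ b c d => h b c d) = e3 l h := by
  have h1 := e4_rev l fun a b c _ => h c b a
  have h2 := e4_last hb fun a b c => h c b a
  have h3 := e3_rev l h
  rw [← h3, ← h2, ← h1]

theorem e3_first (hb : Bdd l) (h : V → V → ℝ) : e3 l (fun _ b c => h b c) = e2 h := by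
  have h1 := e3_rev l fun a b _ => h b a
  have h2 := e3_last hb fun a b => h b a
  rw [← e2_rev h, ← h2, ← h1]

/-- the operator U on functions of four consecutive vertices -/
noncomputable def U (l : LS V) (f : V → V → V → V → ℝ) (a b c d : V) : ℝ :=
  ∑ y, Q l d c y * f b c d y

/-- U preserves the expectation -/
theorem e4_U (hb : Bdd l) (f : V → V → V → V → ℝ) : e4 l (U l f) = e4 l f := by
  have h1 : e4 l (U l f) = e4 l fun _ b c d => ∑ y, Q l d c y * f b c d y := rfl
  rw [h1, e4_first hb]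
  unfold e3 e4
  refine Finset.sum_congr rfl fun a _ => Finset.sum_congr rfl fun b _ =>
    Finset.sum_congr rfl fun c _ => ?_
  rw [Finset.mul_sum]
  refine Finset.sum_congr rfl fun d _ => ?_
  rw [mu4_eq']
  ring

theorem U_mono (hb : Bdd l) {f g : V → V → V → V → ℝ} (h : ∀ a b c d, f a b c d ≤ g a b c d)
    (a b c d : V) : U l f a b c d ≤ U l g a b c d :=
  Finset.sum_le_sum fun y _ => mul_le_mul_of_nonneg_left (h b c d y) (Q_nonneg hb _ _ _)

theorem U_nonneg (hb : Bdd l) {f : V → V → V → V → ℝ} (h : ∀ a b c d, 0 ≤ f a b c d)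
    (a b c d : V) : 0 ≤ U l f a b c d :=
  Finset.sum_nonneg fun y _ => mul_nonneg (Q_nonneg hb _ _ _) (h b c d y)

theorem U_le_one (hb : Bdd l) {f : V → V → V → V → ℝ} (h : ∀ a b c d, f a b c d ≤ 1)
    (a b c d : V) : U l f a b c d ≤ 1 := by
  refine le_trans ?_ (Q_sum_le hb d c)
  refine Finset.sum_le_sum fun y _ => ?_
  have h1 := mul_le_mul_of_nonneg_left (h b c d y) (Q_nonneg hb d c y)
  rw [mul_one] at h1
  exact h1

theorem U_sub (l : LS V) (f g : V → V → V → V → ℝ) (a b c d : V) :
    U l f a b c d - U l g a b c d = U l (fun a b c d => f a b c d - g a b c d) a b c d := by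
  unfold U
  rw [← Finset.sum_sub_distrib]
  exact Finset.sum_congr rfl fun y _ => by ring

theorem U_abs (hb : Bdd l) (f : V → V → V → V → ℝ) (a b c d : V) :
    |U l f a b c d| ≤ U l (fun a b c d => |f a b c d|) a b c d := by
  unfold U
  refine (Finset.abs_sum_le_sum_abs _ _).trans (Finset.sum_le_sum fun y _ => ?_)
  rw [abs_mul, abs_of_nonneg (Q_nonneg hb d c y)]

theorem e4_mono (hb : Bdd l) {f g : V → V → V → V → ℝ} (h : ∀ a b c d, f a b c d ≤ g a b c d) :
    e4 l f ≤ e4 l g :=
  Finset.sum_le_sum fun a _ => Finset.sum_le_sum fun b _ => Finset.sum_le_sum fun c _ =>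
    Finset.sum_le_sum fun d _ => mul_le_mul_of_nonneg_left (h a b c d) (mu4_nonneg hb a b c d)

theorem e4_nonneg (hb : Bdd l) {f : V → V → V → V → ℝ} (h : ∀ a b c d, 0 ≤ f a b c d) :
    0 ≤ e4 l f :=
  Finset.sum_nonneg fun a _ => Finset.sum_nonneg fun b _ => Finset.sum_nonneg fun c _ =>
    Finset.sum_nonneg fun d _ => mul_nonneg (mu4_nonneg hb a b c d) (h a b c d)

theorem e4_add (l : LS V) (f g : V → V → V → V → ℝ) :
    e4 l (fun a b c d => f a b c d + g a b c d) = e4 l f + e4 l g := by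
  unfold e4
  simp only [mul_add, Finset.sum_add_distrib]

theorem e4_sub (l : LS V) (f g : V → V → V → V → ℝ) :
    e4 l (fun a b c d => f a b c d - g a b c d) = e4 l f - e4 l g := by
  unfold e4
  simp only [mul_sub, Finset.sum_sub_distrib]

theorem e4_smul (l : LS V) (r : ℝ) (f : V → V → V → V → ℝ) :
    e4 l (fun a b c d => r * f a b c d) = r * e4 l f := by
  unfold e4
  simp only [Finset.mul_sum]
  refine Finset.sum_congr rfl fun a _ => Finset.sum_congr rfl fun b _ =>
    Finset.sum_congr rfl fun c _ => Finset.sum_congr rfl fun d _ => ?_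
  ring

theorem e3_mono (hb : Bdd l) {f g : V → V → V → ℝ} (h : ∀ a b c, f a b c ≤ g a b c) :
    e3 l f ≤ e3 l g :=
  Finset.sum_le_sum fun a _ => Finset.sum_le_sum fun b _ => Finset.sum_le_sum fun c _ =>
    mul_le_mul_of_nonneg_left (h a b c) (mul_nonneg (w0_nonneg hb a b) (Q_nonneg hb _ _ _))

theorem e3_add (l : LS V) (f g : V → V → V → ℝ) :
    e3 l (fun a b c => f a b c + g a b c) = e3 l f + e3 l g := by
  unfold e3
  simp only [mul_add, Finset.sum_add_distrib]

theorem e3_sub (l : LS V) (f g : V → V → V → ℝ) :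
    e3 l (fun a b c => f a b c - g a b c) = e3 l f - e3 l g := by
  unfold e3
  simp only [mul_sub, Finset.sum_sub_distrib]

theorem e3_smul (l : LS V) (r : ℝ) (f : V → V → V → ℝ) :
    e3 l (fun a b c => r * f a b c) = r * e3 l f := by
  unfold e3
  simp only [Finset.mul_sum]
  refine Finset.sum_congr rfl fun a _ => Finset.sum_congr rfl fun b _ =>
    Finset.sum_congr rfl fun c _ => ?_
  ring

theorem e2_mono (hb : Bdd l) {f g : V → V → ℝ} (h : ∀ a b, f a b ≤ g a b) :
    e2 f ≤ e2 g :=
  Finset.sum_le_sum fun a _ => Finset.sum_le_sum fun b _ =>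
    mul_le_mul_of_nonneg_left (h a b) (w0_nonneg hb a b)

theorem e2_add (f g : V → V → ℝ) :
    e2 (fun a b => f a b + g a b) = e2 f + e2 g := by
  unfold e2
  simp only [mul_add, Finset.sum_add_distrib]

theorem e2_sub (f g : V → V → ℝ) :
    e2 (fun a b => f a b - g a b) = e2 f - e2 g := by
  unfold e2
  simp only [mul_sub, Finset.sum_sub_distrib]

theorem e2_smul (r : ℝ) (f : V → V → ℝ) :
    e2 (fun a b => r * f a b) = r * e2 f := by
  unfold e2
  simp only [Finset.mul_sum]
  refine Finset.sum_congr rfl fun a _ => Finset.sum_congr rfl fun b _ => ?_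
  ring

theorem e2_const (hb : Bdd l) (r : ℝ) : e2 (fun _ _ : V => r) = r := by
  have hN := NN_pos hb
  have hn : nn V ≠ 0 := by
    rw [nn_eq (V := V)]
    positivity
  unfold e2
  simp_rw [← Finset.sum_mul, w0_sum hb]
  rw [Finset.sum_const, Finset.card_univ, nsmul_eq_mul]
  have h4 : ((Fintype.card V : ℕ) : ℝ) = nn V := rfl
  rw [h4]
  field_simp

/-- integration over the middle: the second moment of the difference of consecutive values -/
theorem e3_diff_sq (hb : Bdd l) (g : V → V → ℝ) :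
    e3 l (fun a b c => (g a b - g b c) ^ 2) =
      2 * e2 (fun a b => g a b * (g a b - ∑ c, Q l b a c * g b c)) := by
  have h1 : e3 l (fun a b c => (g a b - g b c) ^ 2) =
      e3 l (fun a b _ => g a b ^ 2) + e3 l (fun _ b c => g b c ^ 2) -
        2 * e3 l (fun a b c => g a b * g b c) := by
    rw [← e3_add, ← e3_smul, ← e3_sub]
    unfold e3
    refine Finset.sum_congr rfl fun a _ => Finset.sum_congr rfl fun b _ =>
      Finset.sum_congr rfl fun c _ => ?_
    ring
  have h2 : e3 l (fun a b c => g a b * g b c) = e2 fun a b => g a b * ∑ c, Q l b a c * g b c := by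
    unfold e3 e2
    refine Finset.sum_congr rfl fun a _ => Finset.sum_congr rfl fun b _ => ?_
    simp only [Finset.mul_sum]
    refine Finset.sum_congr rfl fun c _ => ?_
    ring
  rw [h1, h2, e3_last hb fun a b => g a b ^ 2, e3_first hb fun b c => g b c ^ 2]
  have h3 : e2 (fun a b => g a b * (g a b - ∑ c, Q l b a c * g b c)) =
      e2 (fun a b => g a b ^ 2) - e2 (fun a b => g a b * ∑ c, Q l b a c * g b c) := by
    rw [← e2_sub]
    unfold e2
    refine Finset.sum_congr rfl fun a _ => Finset.sum_congr rfl fun b _ => ?_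
    ring
  rw [h3]
  ring

end Pool.H90BX.Fl46
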