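import Pool.Agent.H46.BX.Ops

set_option autoImplicit false

/-!
B4, part 3: the probability that a long path has no window in A.
-/

namespace Pool.H90BX.Fl46

open Finset
open scoped Classical

variable {V : Type} [Fintype V] [DecidableEq V] {l : LS V}

/-- no window of the first m positions lies in A, weight f of the last window -/
noncomputable def Z (l : LS V) (A : V → V → V → V → Prop) (m : ℕ)
    (f : V → V → V → V → ℝ) : ℝ :=
  ∑ P : Fin (m + 4) → V, mu l (m + 4) P *
    (if ∀ p < m, ¬ A (pt P p) (pt P (p + 1)) (pt P (p + 2)) (pt P (p + 3)) then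
      f (pt P m) (pt P (m + 1)) (pt P (m + 2)) (pt P (m + 3)) else 0)

/-- the step operator -/
noncomputable def Stp (l : LS V) (A : V → V → V → V → Prop) (f : V → V → V → V → ℝ)
    (a b c d : V) : ℝ := if A a b c d then 0 else U l f a b c d

theorem Z_succ (l : LS V) (A : V → V → V → V → Prop) (m : ℕ) (f : V → V → V → V → ℝ) :
    Z l A (m + 1) f = Z l A m (Stp l A f) := by
  unfold Z
  have h0 := sum_snoc (L := m + 4) (V := V) fun P : Fin (m + 4 + 1) → V =>
    mu l (m + 4 + 1) P *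
    (if ∀ p < m + 1, ¬ A (pt P p) (pt P (p + 1)) (pt P (p + 2)) (pt P (p + 3)) then
      f (pt P (m + 1)) (pt P (m + 1 + 1)) (pt P (m + 1 + 2)) (pt P (m + 1 + 3)) else 0)
  refine h0.trans ?_
  refine Finset.sum_congr rfl fun P _ => ?_
  have h1 : ∀ y : V, mu l (m + 4 + 1) (Fin.snoc P y) =
      mu l (m + 4) P * Q l (pt P (m + 3)) (pt P (m + 2)) y := fun y => mu_snoc l (m + 2) P y
  have h2 : ∀ y : V, (∀ p < m + 1, ¬ A (pt (Fin.snoc P y : Fin (m + 4 + 1) → V) p)
      (pt (Fin.snoc P y : Fin (m + 4 + 1) → V) (p + 1))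
      (pt (Fin.snoc P y : Fin (m + 4 + 1) → V) (p + 2))
      (pt (Fin.snoc P y : Fin (m + 4 + 1) → V) (p + 3))) ↔
      ((∀ p < m, ¬ A (pt P p) (pt P (p + 1)) (pt P (p + 2)) (pt P (p + 3))) ∧
        ¬ A (pt P m) (pt P (m + 1)) (pt P (m + 2)) (pt P (m + 3))) := by
    intro y
    have h3 : ∀ p < m + 1, (A (pt (Fin.snoc P y : Fin (m + 4 + 1) → V) p)
        (pt (Fin.snoc P y : Fin (m + 4 + 1) → V) (p + 1))
        (pt (Fin.snoc P y : Fin (m + 4 + 1) → V) (p + 2))
        (pt (Fin.snoc P y : Fin (m + 4 + 1) → V) (p + 3)) ↔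
        A (pt P p) (pt P (p + 1)) (pt P (p + 2)) (pt P (p + 3))) := by
      intro p hp
      rw [pt_snoc_lt P y (by omega : p < m + 4), pt_snoc_lt P y (by omega : p + 1 < m + 4),
        pt_snoc_lt P y (by omega : p + 2 < m + 4), pt_snoc_lt P y (by omega : p + 3 < m + 4)]
    constructor
    · intro h
      exact ⟨fun p hp hA => h p (by omega) ((h3 p (by omega)).2 hA),
        fun hA => h m (by omega) ((h3 m (by omega)).2 hA)⟩
    · rintro ⟨h4, h5⟩ p hp hA
      rw [h3 p hp] at hA
      rcases Nat.lt_succ_iff_lt_or_eq.1 hp with h6 | h6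
      · exact h4 p h6 hA
      · exact h5 (h6 ▸ hA)
  have h4 : ∀ y : V, f (pt (Fin.snoc P y : Fin (m + 4 + 1) → V) (m + 1))
      (pt (Fin.snoc P y : Fin (m + 4 + 1) → V) (m + 1 + 1))
      (pt (Fin.snoc P y : Fin (m + 4 + 1) → V) (m + 1 + 2))
      (pt (Fin.snoc P y : Fin (m + 4 + 1) → V) (m + 1 + 3)) =
      f (pt P (m + 1)) (pt P (m + 2)) (pt P (m + 3)) y := by
    intro y
    have h5 : pt (Fin.snoc P y : Fin (m + 4 + 1) → V) (m + 1 + 3) = y := pt_snoc_last P y
    rw [h5, pt_snoc_lt P y (by omega : m + 1 < m + 4), pt_snoc_lt P y (by omega : m + 1 + 1 < m + 4),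
      pt_snoc_lt P y (by omega : m + 1 + 2 < m + 4)]
  by_cases hA : ∀ p < m, ¬ A (pt P p) (pt P (p + 1)) (pt P (p + 2)) (pt P (p + 3))
  · rw [if_pos hA]
    unfold Stp
    by_cases hA2 : A (pt P m) (pt P (m + 1)) (pt P (m + 2)) (pt P (m + 3))
    · rw [if_pos hA2, mul_zero]
      refine Finset.sum_eq_zero fun y _ => ?_
      rw [if_neg (fun h => ((h2 y).1 h).2 hA2), mul_zero]
    · rw [if_neg hA2]
      unfold U
      rw [Finset.mul_sum]
      refine Finset.sum_congr rfl fun y _ => ?_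
      rw [if_pos ((h2 y).2 ⟨hA, hA2⟩), h1, h4]
      ring
  · rw [if_neg hA, mul_zero]
    refine Finset.sum_eq_zero fun y _ => ?_
    rw [if_neg (fun h => hA ((h2 y).1 h).1), mul_zero]

theorem Z_zero (l : LS V) (A : V → V → V → V → Prop) (f : V → V → V → V → ℝ) :
    Z l A 0 f = e4 l f := by
  unfold Z e4
  have h0 : ∀ G : (Fin 4 → V) → ℝ, ∑ P : Fin 4 → V, G P =
      ∑ a, ∑ b, ∑ c, ∑ d, G (Fin.snoc (Fin.snoc ![a, b] c : Fin 3 → V) d) := by
    intro G
    rw [sum_snoc (L := 3), sum_snoc (L := 2), sum_two]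
  refine (h0 _).trans ?_
  refine Finset.sum_congr rfl fun a _ => Finset.sum_congr rfl fun b _ =>
    Finset.sum_congr rfl fun c _ => Finset.sum_congr rfl fun d _ => ?_
  rw [if_pos (fun p hp => absurd hp (Nat.not_lt_zero p))]
  have h1 : mu l 4 (Fin.snoc (Fin.snoc ![a, b] c : Fin 3 → V) d) = mu4 l a b c d := by
    have h2 := mu_snoc l 1 (Fin.snoc ![a, b] c : Fin 3 → V) d
    have h3 := mu_snoc l 0 (![a, b] : Fin 2 → V) c
    have h4 := mu_two_eq l a b
    refine h2.trans ?_
    rw [h3, h4, mu4_eq']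
    rfl
  have h5 : mu l (0 + 4) (Fin.snoc (Fin.snoc ![a, b] c : Fin 3 → V) d) = mu4 l a b c d := h1
  rw [h5]
  rfl

/-- the iterates of the step operator -/
noncomputable def it (l : LS V) (A : V → V → V → V → Prop) : ℕ → V → V → V → V → ℝ
  | 0 => fun _ _ _ _ => 1
  | k + 1 => Stp l A (it l A k)

theorem Z_it (l : LS V) (A : V → V → V → V → Prop) (m : ℕ) : ∀ j,
    Z l A m (it l A j) = e4 l (it l A (j + m)) := by
  induction m with
  | zero => intro j; exact Z_zero l A _
  | succ m ih =>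
    intro j
    rw [Z_succ]
    have h := ih (j + 1)
    have h2 : j + 1 + m = j + (m + 1) := by omega
    rw [h2] at h
    exact h

/-- the probability of avoiding A -/
theorem avoid_le (hb : Bdd l) (A : V → V → V → V → Prop) (m L0 : ℕ) [NeZero L0] (hL : L0 = m + 4) :
    ∑ P : Fin L0 → V, (if ∀ p, p + 4 ≤ L0 → ¬ A (pt P p) (pt P (p + 1)) (pt P (p + 2))
        (pt P (p + 3)) then mu l L0 P else 0) ≤ e4 l (it l A m) := by
  subst hL
  have h := Z_it l A m 0
  rw [Nat.zero_add] at h
  rw [← h]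
  unfold Z
  refine Finset.sum_le_sum fun P _ => ?_
  have h0 := mu_nonneg hb (m + 4) P
  split_ifs with h1 h2 h3
  · change mu l (m + 4) P ≤ mu l (m + 4) P * 1
    rw [mul_one]
  · exact absurd (fun p hp => h1 p (by omega)) h2
  · change (0 : ℝ) ≤ mu l (m + 4) P * 1
    rw [mul_one]
    exact h0
  · rw [mul_zero]

theorem it_nonneg (hb : Bdd l) (A : V → V → V → V → Prop) :
    ∀ k a b c d, 0 ≤ it l A k a b c d
  | 0, _, _, _, _ => zero_le_one
  | k + 1, a, b, c, d => by
    change 0 ≤ if A a b c d then 0 else U l (it l A k) a b c d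
    split_ifs
    · exact le_rfl
    · exact U_nonneg hb (it_nonneg hb A k) a b c d

theorem it_le_one (hb : Bdd l) (A : V → V → V → V → Prop) :
    ∀ k a b c d, it l A k a b c d ≤ 1
  | 0, _, _, _, _ => le_rfl
  | k + 1, a, b, c, d => by
    change (if A a b c d then 0 else U l (it l A k) a b c d) ≤ 1
    split_ifs
    · exact zero_le_one
    · exact U_le_one hb (it_le_one hb A k) a b c d

theorem it_succ_le (hb : Bdd l) (A : V → V → V → V → Prop) :
    ∀ k a b c d, it l A (k + 1) a b c d ≤ it l A k a b c d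
  | 0, a, b, c, d => it_le_one hb A 1 a b c d
  | k + 1, a, b, c, d => by
    change (if A a b c d then 0 else U l (it l A (k + 1)) a b c d) ≤
      if A a b c d then 0 else U l (it l A k) a b c d
    split_ifs
    · exact le_rfl
    · exact U_mono hb (it_succ_le hb A k) a b c d

theorem it_le_U (hb : Bdd l) (A : V → V → V → V → Prop) (k : ℕ) (a b c d : V) :
    it l A (k + 1) a b c d ≤ U l (it l A k) a b c d := by
  change (if A a b c d then 0 else U l (it l A k) a b c d) ≤ _
  split_ifs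
  · exact U_nonneg hb (it_nonneg hb A k) a b c d
  · exact le_rfl

theorem it_zero_on (l : LS V) (A : V → V → V → V → Prop) (k : ℕ) {a b c d : V}
    (h : A a b c d) : it l A (k + 1) a b c d = 0 := if_pos h

theorem e4_it_anti (hb : Bdd l) (A : V → V → V → V → Prop) {j k : ℕ} (h : j ≤ k) :
    e4 l (it l A k) ≤ e4 l (it l A j) := by
  induction h with
  | refl => exact le_rfl
  | step _ ih => exact (e4_mono hb (it_succ_le hb A _)).trans ih

/-- a step with small decrease -/
theorem exists_small (hb : Bdd l) (A : V → V → V → V → Prop) {M : ℕ} (hM : 0 < M) :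
    ∃ k, 1 ≤ k ∧ k ≤ M ∧ e4 l (it l A k) - e4 l (it l A (k + 1)) ≤ 1 / M := by
  by_contra hcon
  push Not at hcon
  have h1 : ∀ j ≤ M, (j : ℝ) * (1 / M) ≤ e4 l (it l A 1) - e4 l (it l A (1 + j)) := by
    intro j
    induction j with
    | zero =>
      intro _
      simp
    | succ j ih =>
      intro hj
      have h2 := ih (by omega)
      have h3 := hcon (1 + j) (by omega) (by omega)
      push_cast
      have h4 : 1 + (j + 1) = 1 + j + 1 := by omega
      rw [h4, add_mul, one_mul]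
      linarith
  have h5 := h1 M le_rfl
  have hM' : (0 : ℝ) < M := by exact_mod_cast hM
  rw [mul_one_div, div_self hM'.ne'] at h5
  have h6 : e4 l (it l A 1) ≤ 1 := by
    have h7 := e4_mono hb (it_le_one hb A 1)
    refine h7.trans (le_of_eq ?_)
    rw [e4_last hb fun _ _ _ => 1, e3_last hb fun _ _ => 1, e2_const hb]
  -- strict inequality for the last step
  have h8 := hcon M hM le_rfl
  have h9 := h1 (M - 1) (by omega)
  have h10 : 1 + (M - 1) = M := by omega
  rw [h10] at h9
  have h11 := e4_nonneg hb (it_nonneg hb A (M + 1))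
  have h12 : (((M - 1 : ℕ) : ℝ)) = M - 1 := by
    rw [Nat.cast_sub hM, Nat.cast_one]
  rw [h12] at h9
  have h13 : ((M : ℝ) - 1) * (1 / M) = 1 - 1 / M := by
    field_simp
  rw [h13] at h9
  linarith

end Pool.H90BX.Fl46
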