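import Pool.Agent.H90.BX.PartsT

set_option autoImplicit false

/-!
H1 and H2: the violation bounds the number of irregular pairs and the mass of the transitions.
-/

namespace Pool.H90BX.Fl46

open Finset

theorem third_key : ∀ a b c d : Lb, a ≠ b → a ≠ c → a ≠ d → b ≠ c → b ≠ d → c ≠ d → d = 3 →
    third a b = c ∧ third a c = b ∧ third b c = a := by decide

open scoped Classical

variable {V : Type} [Fintype V] [DecidableEq V] {l : LS V} {r : ℕ}
variable {psi : Fin r → Fin r} {part : V → Lb → Fin r}

/-- the violation of a pair of states -/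
noncomputable def vio (l : LS V) (psi : Fin r → Fin r) (part : V → Lb → Fin r)
    (s t : St V) : ℝ := if part t.1 t.2 ≠ psi (part s.1 s.2) then W l s t else 0

theorem vio_nonneg (hb : Bdd l) (hn : 17 ≤ Fintype.card V) (s t : St V) :
    0 ≤ vio l psi part s t := by
  unfold vio
  split_ifs
  · exact (flow hb hn).nonneg s t
  · exact le_rfl

theorem viol_ge (hb : Bdd l) (hn : 17 ≤ Fintype.card V) (a b : V → V → Lb) :
    ∑ v, ∑ w, vio l psi part (v, a v w) (w, b v w) ≤ viol l psi part := by
  have h1 : viol l psi part = ∑ x ∈ (univ : Finset (St V)) ×ˢ (univ : Finset (St V)),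
      vio l psi part x.1 x.2 := by
    rw [Finset.sum_product]
    rfl
  have h2 : ∑ v, ∑ w, vio l psi part (v, a v w) (w, b v w) =
      ∑ x ∈ ((univ : Finset V) ×ˢ (univ : Finset V)).image
        (fun y => (((y.1, a y.1 y.2), (y.2, b y.1 y.2)) : St V × St V)),
        vio l psi part x.1 x.2 := by
    rw [Finset.sum_image, Finset.sum_product]
    intro x _ y _ hxy
    have h3 := congrArg Prod.fst (congrArg Prod.fst hxy)
    have h4 := congrArg Prod.fst (congrArg Prod.snd hxy)
    exact Prod.ext h3 h4
  rw [h1, h2]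
  refine Finset.sum_le_sum_of_subset_of_nonneg ?_ fun x _ _ => vio_nonneg hb hn x.1 x.2
  intro x _
  rw [Finset.mem_product]
  exact ⟨Finset.mem_univ _, Finset.mem_univ _⟩

theorem mx_ne_md (l : LS V) (v : V) : mx l v ≠ md l v := fun h => by
  have := (exists_sort l v).choose.injective h
  exact absurd this (by decide)

theorem mx_ne_mn (l : LS V) (v : V) : mx l v ≠ mn l v := fun h => by
  have := (exists_sort l v).choose.injective h
  exact absurd this (by decide)

theorem md_ne_mn (l : LS V) (v : V) : md l v ≠ mn l v := fun h => by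
  have := (exists_sort l v).choose.injective h
  exact absurd this (by decide)

theorem mx_ne_ml (l : LS V) (v : V) : mx l v ≠ ml l v := fun h => by
  have := (exists_sort l v).choose.injective h
  exact absurd this (by decide)

theorem md_ne_ml (l : LS V) (v : V) : md l v ≠ ml l v := fun h => by
  have := (exists_sort l v).choose.injective h
  exact absurd this (by decide)

theorem mn_ne_ml (l : LS V) (v : V) : mn l v ≠ ml l v := fun h => by
  have := (exists_sort l v).choose.injective h
  exact absurd this (by decide)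

theorem Rl_ne (l : LS V) (v : V) (i : Lb) : Rl l v i ≠ i := by
  unfold Rl
  split_ifs with h
  · rw [h]
    exact (mx_ne_md l v).symm
  · exact fun h' => h h'.symm

theorem Rl_mx (l : LS V) (v : V) : Rl l v (mx l v) = md l v := if_pos rfl
theorem Rl_md (l : LS V) (v : V) : Rl l v (md l v) = mx l v := if_neg (mx_ne_md l v).symm
theorem Rl_mn (l : LS V) (v : V) : Rl l v (mn l v) = mx l v := if_neg (mx_ne_mn l v).symm
theorem Rl_ml (l : LS V) (v : V) : Rl l v (ml l v) = mx l v := if_neg (mx_ne_ml l v).symm

/-- transition masses in terms of the sorted labels at a vertex with three classes -/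
theorem mm_sorted (hb : Bdd l) {v : V} (h : T3 l v) (hml : ml l v = 3) :
    mm l v (mx l v) (md l v) = (NN V - 2 * cnt l v (mn l v)) / 2 ∧
    mm l v (mx l v) (mn l v) = (NN V - 2 * cnt l v (md l v)) / 2 ∧
    mm l v (md l v) (mn l v) = (NN V - 2 * cnt l v (mx l v)) / 2 := by
  have h3 := third_key _ _ _ _ (mx_ne_md l v) (mx_ne_mn l v) (mx_ne_ml l v) (md_ne_mn l v)
    (md_ne_ml l v) (mn_ne_ml l v) hml
  have a1 : mx l v ≠ 3 := fun h' => mx_ne_ml l v (h'.trans hml.symm)
  have a2 : md l v ≠ 3 := fun h' => md_ne_ml l v (h'.trans hml.symm)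
  have a3 : mn l v ≠ 3 := fun h' => mn_ne_ml l v (h'.trans hml.symm)
  rw [mm_T3 hb h (mx_ne_md l v) a1 a2, mm_T3 hb h (mx_ne_mn l v) a1 a3,
    mm_T3 hb h (md_ne_mn l v) a2 a3, h3.1, h3.2.1, h3.2.2]
  exact ⟨rfl, rfl, rfl⟩

theorem T3_ge (hb : Bdd l) {v : V} (h : T3 l v) {i : Lb} (hi : i ≠ 3) :
    (1 : ℝ) ≤ cnt l v i := by
  have hs := cnt_sum4 l v
  have h3 := T3_three h
  have h0 := T3_le h 0
  have h1 := T3_le h 1
  have h2 := T3_le h 2
  fin_cases i
  · simp only [Fin.zero_eta]
    linarith
  · simp only [Fin.mk_one]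
    linarith
  · simp only [Fin.reduceFinMk]
    linarith
  · exact absurd rfl hi

theorem T3_ml_eq (hb : Bdd l) {v : V} (h : T3 l v) : ml l v = 3 := by
  by_contra hne
  have h1 := T3_ge hb h hne
  rw [T3_ml h, Nat.cast_zero] at h1
  linarith

/-- the largest other label has transition probability at least 1/3 -/
theorem tr_Rl (hb : Bdd l) {v : V} {i : Lb} (hi : 0 < cnt l v i) :
    1 / 3 ≤ tr l v i (Rl l v i) := by
  have hi' : (0 : ℝ) < cnt l v i := by exact_mod_cast hi
  have h1 : (cnt l v (md l v) : ℝ) ≤ cnt l v (mx l v) := by exact_mod_cast md_le_mx l v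
  have h2 : (cnt l v (mn l v) : ℝ) ≤ cnt l v (md l v) := by exact_mod_cast mn_le_md l v
  unfold tr
  rw [div_le_div_iff₀ (by norm_num) hi']
  rcases hb.2 v with h | h
  · have hs := sort_sum l v
    rw [T3_ml h, Nat.cast_zero] at hs
    obtain ⟨m1, m2, m3⟩ := mm_sorted hb h (T3_ml_eq hb h)
    have g1 := T3_le h (mx l v)
    have g2 := T3_le h (md l v)
    have g3 := T3_le h (mn l v)
    rcases eq_sort l v i with hi | hi | hi | hi
    · rw [hi, Rl_mx, m1]
      linarith
    · rw [hi, Rl_md, mm_symm, m1]
      linarith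
    · rw [hi, Rl_mn, mm_symm, m2]
      linarith
    · rw [hi, T3_ml h, Nat.cast_zero] at hi'
      exact absurd hi' (lt_irrefl _)
  · rw [mm_T4 h (Rl_ne l v i).symm]
    have := T4_eq h i
    linarith

theorem nn_NN_pos (hn : 17 ≤ Fintype.card V) : 0 < nn V * NN V := by
  have hn' : (17 : ℝ) ≤ nn V := by
    unfold nn
    exact_mod_cast hn
  have hN : (0 : ℝ) < NN V := by
    have : NN V = nn V - 1 := rfl
    linarith
  exact mul_pos (by linarith) hN

/-- H1 -/
theorem irr_le (hb : Bdd l) (hn : 17 ≤ Fintype.card V) :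
    irr l psi part ≤ 9 * viol l psi part * (nn V * NN V) := by
  have hpos := nn_NN_pos (V := V) hn
  have h1 := viol_ge (psi := psi) (part := part) hb hn (fun v w => Rl l v (l v w))
    (fun v w => Rl l w (l w v))
  have h2 : irr l psi part / (9 * (nn V * NN V)) ≤
      ∑ v, ∑ w, vio l psi part (v, Rl l v (l v w)) (w, Rl l w (l w v)) := by
    have h3 : irr l psi part = ∑ v, ∑ w, if v ≠ w ∧ ¬ Reg l psi part v w then (1 : ℝ) else 0 := by
      unfold irr
      rw [← Finset.sum_product', ← Finset.sum_filter, Finset.sum_const, nsmul_eq_mul, mul_one]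
      rfl
    rw [h3, Finset.sum_div]
    refine Finset.sum_le_sum fun v _ => ?_
    rw [Finset.sum_div]
    refine Finset.sum_le_sum fun w _ => ?_
    by_cases h : v ≠ w ∧ ¬ Reg l psi part v w
    · rw [if_pos h]
      unfold vio W
      have h4 : part w (Rl l w (l w v)) ≠ psi (part v (Rl l v (l v w))) := h.2
      rw [if_pos h4]
      simp only
      rw [if_pos h.1]
      have h5 := tr_Rl hb (cnt_pos_of_ne l h.1)
      have h6 := tr_Rl hb (cnt_pos_of_ne l (Ne.symm h.1))
      have h7 : 1 / 3 * (1 / 3) ≤ tr l v (l v w) (Rl l v (l v w)) *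
          tr l w (l w v) (Rl l w (l w v)) :=
        mul_le_mul h5 h6 (by norm_num) (by linarith)
      calc 1 / (9 * (nn V * NN V)) = 1 / (nn V * NN V) * (1 / 3 * (1 / 3)) := by
            field_simp
            norm_num
        _ ≤ _ := mul_le_mul_of_nonneg_left h7 (by positivity)
    · rw [if_neg h, zero_div]
      exact vio_nonneg hb hn _ _
  rw [div_le_iff₀ (by positivity)] at h2
  have h8 := mul_le_mul_of_nonneg_right h1 (by positivity : 0 ≤ 9 * (nn V * NN V))
  linarith

/-- H2 -/
theorem trn_le (hb : Bdd l) (hn : 17 ≤ Fintype.card V) (hpsi : ∀ a, psi (psi a) = a) :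
    trn l part ≤ 18 * viol l psi part * (nn V * NN V) := by
  have hpos := nn_NN_pos (V := V) hn
  have h1 := viol_ge (psi := psi) (part := part) hb hn
    (fun v w => if part w (Rl l w (l w v)) ≠ psi (part v (mx l v)) then mx l v else md l v)
    (fun v w => Rl l w (l w v))
  have h2 : trn l part / (18 * (nn V * NN V)) ≤
      ∑ v, ∑ w, vio l psi part
        (v, if part w (Rl l w (l w v)) ≠ psi (part v (mx l v)) then mx l v else md l v)
        (w, Rl l w (l w v)) := by
    unfold trn
    rw [Finset.sum_div]
    refine Finset.sum_le_sum fun v _ => ?_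
    by_cases hv : part v (mx l v) ≠ part v (md l v)
    swap
    · rw [if_neg hv, zero_div]
      exact Finset.sum_nonneg fun w _ => vio_nonneg hb hn _ _
    rw [if_pos hv]
    have g1 : (cnt l v (md l v) : ℝ) ≤ cnt l v (mx l v) := by exact_mod_cast md_le_mx l v
    -- lower bounds for the transitions from mn
    have hNN := NN_pos hb
    have hfac : 0 < (cnt l v (mn l v) : ℝ) ∧ 0 ≤ (NN V - 2 * cnt l v (mx l v)) ∧
        (NN V - 2 * cnt l v (mx l v)) / (6 * cnt l v (mn l v)) ≤ tr l v (mn l v) (mx l v) ∧
        (NN V - 2 * cnt l v (mx l v)) / (6 * cnt l v (mn l v)) ≤ tr l v (mn l v) (md l v) := by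
      unfold tr
      rcases hb.2 v with h | h
      · have hml := T3_ml_eq hb h
        obtain ⟨m1, m2, m3⟩ := mm_sorted hb h hml
        have a3 : mn l v ≠ 3 := fun h' => mn_ne_ml l v (h'.trans hml.symm)
        have h0 : (1 : ℝ) ≤ cnt l v (mn l v) := T3_ge hb h a3
        have h4 := T3_le h (mx l v)
        refine ⟨by linarith, by linarith, ?_, ?_⟩
        · rw [mm_symm, m2, div_le_div_iff₀ (by linarith) (by linarith)]
          nlinarith
        · rw [mm_symm, m3, div_le_div_iff₀ (by linarith) (by linarith)]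
          nlinarith
      · have h3 := T4_eq h (mn l v)
        have h4 := T4_eq h (mx l v)
        refine ⟨by linarith, by linarith, ?_, ?_⟩
        · rw [mm_T4 h (mx_ne_mn l v).symm, div_le_div_iff₀ (by linarith) (by linarith)]
          have h5 : (cnt l v (mn l v) : ℝ) = NN V / 4 := by linarith
          have h6 : (cnt l v (mx l v) : ℝ) = NN V / 4 := by linarith
          rw [h5, h6]
          nlinarith
        · rw [mm_T4 h (md_ne_mn l v).symm, div_le_div_iff₀ (by linarith) (by linarith)]
          have h5 : (cnt l v (mn l v) : ℝ) = NN V / 4 := by linarith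
          have h6 : (cnt l v (mx l v) : ℝ) = NN V / 4 := by linarith
          rw [h5, h6]
          nlinarith
    obtain ⟨hmn, hnn, ht1, ht2⟩ := hfac
    have h6 : 0 ≤ (NN V - 2 * cnt l v (mx l v)) / (6 * cnt l v (mn l v)) :=
      div_nonneg hnn (by linarith)
    -- the bound for one w
    have h3 : ∀ w, (if v ≠ w then (if l v w = mn l v then 1 / (nn V * NN V) *
        ((NN V - 2 * cnt l v (mx l v)) / (6 * cnt l v (mn l v)) * (1 / 3)) else 0) else 0) ≤
        vio l psi part
        (v, if part w (Rl l w (l w v)) ≠ psi (part v (mx l v)) then mx l v else md l v)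
        (w, Rl l w (l w v)) := by
      intro w
      by_cases hvw : v ≠ w
      swap
      · rw [if_neg hvw]
        exact vio_nonneg hb hn _ _
      rw [if_pos hvw]
      by_cases hl : l v w = mn l v
      swap
      · rw [if_neg hl]
        exact vio_nonneg hb hn _ _
      rw [if_pos hl]
      have h5 := tr_Rl hb (cnt_pos_of_ne l (Ne.symm hvw))
      by_cases hp : part w (Rl l w (l w v)) ≠ psi (part v (mx l v))
      · rw [if_pos hp]
        unfold vio W
        simp only
        rw [if_pos hp, if_pos hvw, hl]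
        refine mul_le_mul_of_nonneg_left ?_ (by positivity)
        exact mul_le_mul ht1 h5 (by norm_num) (h6.trans ht1)
      · rw [if_neg hp]
        have hp' : part w (Rl l w (l w v)) = psi (part v (mx l v)) := not_not.1 hp
        have hq : part w (Rl l w (l w v)) ≠ psi (part v (md l v)) := by
          rw [hp']
          intro h8
          apply hv
          rw [← hpsi (part v (mx l v)), h8, hpsi]
        unfold vio W
        simp only
        rw [if_pos hq, if_pos hvw, hl]
        refine mul_le_mul_of_nonneg_left ?_ (by positivity)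
        exact mul_le_mul ht2 h5 (by norm_num) (h6.trans ht2)
    refine le_trans (le_of_eq ?_) (Finset.sum_le_sum fun w _ => h3 w)
    rw [cnt_fiber l v fun i => if i = mn l v then 1 / (nn V * NN V) *
        ((NN V - 2 * cnt l v (mx l v)) / (6 * cnt l v (mn l v)) * (1 / 3)) else 0]
    simp only [mul_ite, mul_zero, Finset.sum_ite_eq', Finset.mem_univ, if_true]
    have : (cnt l v (mn l v) : ℝ) ≠ 0 := hmn.ne'
    field_simp
    ring
  rw [div_le_iff₀ (by positivity)] at h2
  have h8 := mul_le_mul_of_nonneg_right h1 (by positivity : 0 ≤ 18 * (nn V * NN V))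
  linarith

end Pool.H90BX.Fl46
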