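import Pool.Agent.H46.BX.Flow

set_option autoImplicit false

/-!
B1, B2: the transition weights; the path measure; windows.
-/

namespace Pool.H90BX.Fl46

open Finset
open scoped Classical

variable {V : Type} [Fintype V] [DecidableEq V] {l : LS V}

theorem Q_symm (l : LS V) (v x y : V) : Q l v x y = Q l v y x := by
  unfold Q
  by_cases h : x ≠ v ∧ y ≠ v
  · rw [if_pos h, if_pos h.symm, mm_symm, mul_comm]
  · rw [if_neg h, if_neg (fun h' => h h'.symm)]

theorem Q_nonneg (hb : Bdd l) (v x y : V) : 0 ≤ Q l v x y := by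
  unfold Q
  split_ifs
  · exact div_nonneg (mm_nonneg hb v _ _) (by positivity)
  · exact le_rfl

theorem Q_eq_zero_left (l : LS V) {v x : V} (h : x = v) (y : V) : Q l v x y = 0 :=
  if_neg fun h' => h'.1 h

theorem Q_eq_zero_right (l : LS V) {v y : V} (h : y = v) (x : V) : Q l v x y = 0 :=
  if_neg fun h' => h'.2 h

theorem Q_sum (hb : Bdd l) {v x : V} (h : x ≠ v) : ∑ y, Q l v x y = 1 := by
  have hi : 0 < cnt l v (l v x) := cnt_pos_of_ne l h.symm
  have hi' : (cnt l v (l v x) : ℝ) ≠ 0 := by exact_mod_cast hi.ne'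
  have h1 : ∀ y, Q l v x y = if v ≠ y then
      (fun j => mm l v (l v x) j / (cnt l v (l v x) * cnt l v j)) (l v y) else 0 := by
    intro y
    unfold Q
    by_cases hy : y = v
    · rw [if_neg (fun h' => h'.2 hy), if_neg (fun h' => h' hy.symm)]
    · rw [if_pos ⟨h, hy⟩, if_pos (fun h' => hy h'.symm)]
  simp_rw [h1]
  rw [cnt_fiber l v fun j => mm l v (l v x) j / (cnt l v (l v x) * cnt l v j)]
  have h2 : ∀ j, (cnt l v j : ℝ) * (mm l v (l v x) j / (cnt l v (l v x) * cnt l v j)) =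
      mm l v (l v x) j / cnt l v (l v x) := by
    intro j
    rcases Nat.eq_zero_or_pos (cnt l v j) with h0 | h0
    · rw [mm_symm, mm_zero hb h0, zero_div, zero_div, mul_zero]
    · have h0' : (cnt l v j : ℝ) ≠ 0 := by exact_mod_cast h0.ne'
      field_simp
  simp_rw [h2]
  rw [← Finset.sum_div, mm_sum hb]
  exact div_self hi'

theorem Q_sum_le (hb : Bdd l) (v x : V) : ∑ y, Q l v x y ≤ 1 := by
  by_cases h : x = v
  · rw [Finset.sum_eq_zero fun y _ => Q_eq_zero_left l h y]
    exact zero_le_one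
  · exact (Q_sum hb h).le

theorem Q_sum' (hb : Bdd l) {v y : V} (h : y ≠ v) : ∑ x, Q l v x y = 1 := by
  rw [← Q_sum hb h]
  exact Finset.sum_congr rfl fun x _ => Q_symm l v x y

/-- the transition weights are at most 4/N -/
theorem Q_le (hb : Bdd l) (v x y : V) : Q l v x y ≤ 4 / NN V := by
  have hN := NN_pos hb
  unfold Q
  split_ifs with h
  · have h1 : (0 : ℝ) < cnt l v (l v x) := by exact_mod_cast cnt_pos_of_ne l (Ne.symm h.1)
    have h2 : (0 : ℝ) < cnt l v (l v y) := by exact_mod_cast cnt_pos_of_ne l (Ne.symm h.2)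
    rw [div_le_div_iff₀ (mul_pos h1 h2) hN]
    have h3 := mm_bound hb v (l v x) (l v y)
    linarith
  · positivity

/-- the first factor of the path measure -/
noncomputable def w0 (x y : V) : ℝ :=
  if x ≠ y then 1 / (nn V * NN V) else 0

theorem w0_symm (x y : V) : w0 x y = w0 y x := by
  unfold w0
  by_cases h : x = y
  · rw [h]
  · rw [if_pos h, if_pos (fun h' => h h'.symm)]

theorem w0_Q (l : LS V) (a b c : V) : w0 a b * Q l b a c = w0 b c * Q l b a c := by
  unfold w0
  by_cases h1 : a = b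
  · rw [Q_eq_zero_left l h1, mul_zero, mul_zero]
  by_cases h2 : c = b
  · rw [Q_eq_zero_right l h2, mul_zero, mul_zero]
  rw [if_pos h1, if_pos (fun h => h2 h.symm)]

/-- the path measure for functions on the natural numbers -/
noncomputable def mup (l : LS V) (L : ℕ) (p : ℕ → V) : ℝ :=
  w0 (p 0) (p 1) * ∏ a ∈ range (L - 2), Q l (p (a + 1)) (p a) (p (a + 2))

theorem mu_eq (l : LS V) (L : ℕ) [NeZero L] (P : Fin L → V) : mu l L P = mup l L (pt P) := rfl

theorem mup_succ (l : LS V) (k : ℕ) (p : ℕ → V) :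
    mup l (k + 3) p = mup l (k + 2) p * Q l (p (k + 1)) (p k) (p (k + 2)) := by
  unfold mup
  have h1 : k + 3 - 2 = k + 1 := rfl
  have h2 : k + 2 - 2 = k := rfl
  rw [h1, h2, Finset.prod_range_succ]
  ring

theorem mup_cons (l : LS V) (k : ℕ) (p : ℕ → V) :
    mup l (k + 3) p = Q l (p 1) (p 0) (p 2) * mup l (k + 2) (fun a => p (a + 1)) := by
  unfold mup
  have h1 : k + 3 - 2 = k + 1 := rfl
  have h2 : k + 2 - 2 = k := rfl
  rw [h1, h2, Finset.prod_range_succ']
  have h3 := w0_Q l (p 0) (p 1) (p 2)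
  calc w0 (p 0) (p 1) * ((∏ a ∈ range k, Q l (p (a + 1 + 1)) (p (a + 1)) (p (a + 1 + 2))) *
        Q l (p (0 + 1)) (p 0) (p (0 + 2)))
      = (w0 (p 0) (p 1) * Q l (p 1) (p 0) (p 2)) *
        ∏ a ∈ range k, Q l (p (a + 1 + 1)) (p (a + 1)) (p (a + 1 + 2)) := by ring
    _ = _ := by
        rw [h3]
        ring

theorem mup_congr (l : LS V) (k : ℕ) {p p' : ℕ → V} (h : ∀ a < k + 2, p a = p' a) :
    mup l (k + 2) p = mup l (k + 2) p' := by
  unfold mup
  have h2 : k + 2 - 2 = k := rfl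
  rw [h2, h 0 (by omega), h 1 (by omega)]
  congr 1
  refine Finset.prod_congr rfl fun a ha => ?_
  rw [Finset.mem_range] at ha
  rw [h a (by omega), h (a + 1) (by omega), h (a + 2) (by omega)]

theorem mup_nonneg (hb : Bdd l) (L : ℕ) (p : ℕ → V) : 0 ≤ mup l L p := by
  have hN := NN_pos hb
  have hn : 0 < nn V := by
    have : NN V = nn V - 1 := rfl
    linarith
  unfold mup w0
  refine mul_nonneg ?_ (Finset.prod_nonneg fun a _ => Q_nonneg hb _ _ _)
  split_ifs
  · positivity
  · exact le_rfl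

theorem mu_nonneg (hb : Bdd l) (L : ℕ) [NeZero L] (P : Fin L → V) : 0 ≤ mu l L P :=
  mup_nonneg hb L _

theorem pt_lt {W : Type} {L : ℕ} [NeZero L] (P : Fin L → W) {a : ℕ} (h : a < L) :
    pt P a = P ⟨a, h⟩ := by
  unfold pt
  congr 1
  apply Fin.ext
  exact Nat.mod_eq_of_lt h

theorem pt_snoc_lt {W : Type} {L : ℕ} [NeZero L] (P : Fin L → W) (y : W) {a : ℕ} (h : a < L) :
    pt (Fin.snoc P y : Fin (L + 1) → W) a = pt P a := by
  rw [pt_lt _ (Nat.lt_succ_of_lt h), pt_lt _ h]
  have : (⟨a, Nat.lt_succ_of_lt h⟩ : Fin (L + 1)) = Fin.castSucc ⟨a, h⟩ := rfl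
  rw [this, Fin.snoc_castSucc (α := fun _ => W)]

theorem pt_snoc_last {W : Type} {L : ℕ} [NeZero L] (P : Fin L → W) (y : W) :
    pt (Fin.snoc P y : Fin (L + 1) → W) L = y := by
  rw [pt_lt _ (Nat.lt_succ_self L)]
  have : (⟨L, Nat.lt_succ_self L⟩ : Fin (L + 1)) = Fin.last L := rfl
  rw [this, Fin.snoc_last (α := fun _ => W)]

theorem pt_cons_zero {W : Type} {L : ℕ} (P : Fin L → W) (y : W) :
    pt (Fin.cons y P : Fin (L + 1) → W) 0 = y := by
  rw [pt_lt _ (Nat.succ_pos L)]
  rfl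

theorem pt_cons_succ {W : Type} {L : ℕ} [NeZero L] (P : Fin L → W) (y : W) {a : ℕ} (h : a < L) :
    pt (Fin.cons y P : Fin (L + 1) → W) (a + 1) = pt P a := by
  rw [pt_lt _ (Nat.succ_lt_succ h), pt_lt _ h]
  rfl

theorem sum_snoc {L : ℕ} (G : (Fin (L + 1) → V) → ℝ) :
    ∑ P : Fin (L + 1) → V, G P = ∑ P : Fin L → V, ∑ y, G (Fin.snoc P y) := by
  rw [← (Fin.snocEquiv fun _ : Fin (L + 1) => V).sum_comp, Fintype.sum_prod_type,
    Finset.sum_comm]
  rfl

theorem sum_cons {L : ℕ} (G : (Fin (L + 1) → V) → ℝ) :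
    ∑ P : Fin (L + 1) → V, G P = ∑ P : Fin L → V, ∑ y, G (Fin.cons y P) := by
  rw [← (Fin.consEquiv fun _ : Fin (L + 1) => V).sum_comp, Fintype.sum_prod_type,
    Finset.sum_comm]
  rfl

/-- the measure of an extension at the end -/
theorem mu_snoc (l : LS V) (k : ℕ) (P : Fin (k + 2) → V) (y : V) :
    mu l (k + 3) (Fin.snoc P y) = mu l (k + 2) P * Q l (pt P (k + 1)) (pt P k) y := by
  rw [mu_eq, mu_eq, mup_succ, pt_snoc_lt P y (by omega : k + 1 < k + 2),
    pt_snoc_lt P y (by omega : k < k + 2), pt_snoc_last P y]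
  congr 1
  exact mup_congr l k fun a ha => pt_snoc_lt P y ha

/-- the measure of an extension at the beginning -/
theorem mu_cons (l : LS V) (k : ℕ) (P : Fin (k + 2) → V) (y : V) :
    mu l (k + 3) (Fin.cons y P) = Q l (pt P 0) y (pt P 1) * mu l (k + 2) P := by
  rw [mu_eq, mu_eq, mup_cons, pt_cons_zero, pt_cons_succ P y (by omega : 0 < k + 2),
    pt_cons_succ P y (by omega : 1 < k + 2)]
  congr 1
  exact mup_congr l k fun a ha => pt_cons_succ P y ha

theorem mu_ne_last (l : LS V) (k : ℕ) (P : Fin (k + 2) → V) (h : mu l (k + 2) P ≠ 0) :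
    pt P k ≠ pt P (k + 1) := by
  intro h'
  apply h
  rw [mu_eq]
  cases k with
  | zero =>
    unfold mup w0
    rw [if_neg (fun h'' => h'' h'), zero_mul]
  | succ k =>
    rw [mup_succ, Q_eq_zero_right l h'.symm, mul_zero]

theorem mu_ne_first (l : LS V) (k : ℕ) (P : Fin (k + 2) → V) (h : mu l (k + 2) P ≠ 0) :
    pt P 0 ≠ pt P 1 := by
  intro h'
  apply h
  rw [mu_eq]
  unfold mup w0
  rw [if_neg (fun h'' => h'' h'), zero_mul]

/-- summing out the last coordinate -/
theorem drop_last (hb : Bdd l) (k : ℕ) (h : (Fin (k + 2) → V) → ℝ) :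
    ∑ P : Fin (k + 3) → V, mu l (k + 3) P * h (fun a => P a.castSucc) =
      ∑ P : Fin (k + 2) → V, mu l (k + 2) P * h P := by
  rw [sum_snoc]
  refine Finset.sum_congr rfl fun P _ => ?_
  have h1 : ∀ y : V, mu l (k + 3) (Fin.snoc P y) *
      h (fun a => (Fin.snoc P y : Fin (k + 3) → V) a.castSucc) =
      mu l (k + 2) P * h P * Q l (pt P (k + 1)) (pt P k) y := by
    intro y
    rw [mu_snoc]
    have h2 : (fun a : Fin (k + 2) => (Fin.snoc P y : Fin (k + 3) → V) a.castSucc) = P := by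
      funext a
      rw [Fin.snoc_castSucc (α := fun _ => V)]
    rw [h2]
    ring
  simp_rw [h1]
  rw [← Finset.mul_sum]
  by_cases h0 : mu l (k + 2) P = 0
  · rw [h0]
    ring
  · rw [Q_sum hb (mu_ne_last l k P h0), mul_one]

/-- summing out the first coordinate -/
theorem drop_first (hb : Bdd l) (k : ℕ) (h : (Fin (k + 2) → V) → ℝ) :
    ∑ P : Fin (k + 3) → V, mu l (k + 3) P * h (fun a => P a.succ) =
      ∑ P : Fin (k + 2) → V, mu l (k + 2) P * h P := by
  rw [sum_cons]
  refine Finset.sum_congr rfl fun P _ => ?_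
  have h1 : ∀ y : V, mu l (k + 3) (Fin.cons y P) *
      h (fun a => (Fin.cons y P : Fin (k + 3) → V) a.succ) =
      mu l (k + 2) P * h P * Q l (pt P 0) y (pt P 1) := by
    intro y
    rw [mu_cons]
    have h2 : (fun a : Fin (k + 2) => (Fin.cons y P : Fin (k + 3) → V) a.succ) = P := by
      funext a
      rw [Fin.cons_succ]
    rw [h2]
    ring
  simp_rw [h1]
  rw [← Finset.mul_sum]
  by_cases h0 : mu l (k + 2) P = 0
  · rw [h0]
    ring
  · rw [Q_sum' hb (mu_ne_first l k P h0).symm, mul_one]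

theorem drop_last' (hb : Bdd l) (L : ℕ) [NeZero L] (hL : 2 ≤ L) (h : (Fin L → V) → ℝ) :
    ∑ P : Fin (L + 1) → V, mu l (L + 1) P * h (fun a => P a.castSucc) =
      ∑ P : Fin L → V, mu l L P * h P := by
  obtain ⟨k, rfl⟩ : ∃ k, L = k + 2 := ⟨L - 2, by omega⟩
  exact drop_last hb k h

theorem drop_first' (hb : Bdd l) (L : ℕ) [NeZero L] (hL : 2 ≤ L) (h : (Fin L → V) → ℝ) :
    ∑ P : Fin (L + 1) → V, mu l (L + 1) P * h (fun a => P a.succ) =
      ∑ P : Fin L → V, mu l L P * h P := by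
  obtain ⟨k, rfl⟩ : ∃ k, L = k + 2 := ⟨L - 2, by omega⟩
  exact drop_first hb k h

theorem mu_window_p (hb : Bdd l) (w : ℕ) [NeZero w] (hw : 2 ≤ w) (g : (Fin w → V) → ℝ) (p : ℕ) :
    ∀ (L : ℕ) [NeZero L], L = w + p →
    ∑ P : Fin L → V, mu l L P * g (fun a => pt P (p + a)) =
      ∑ x : Fin w → V, mu l w x * g x := by
  induction p with
  | zero =>
    intro L _ hL
    obtain rfl : L = w := by omega
    refine Finset.sum_congr rfl fun P _ => ?_
    congr 2
    funext a
    have h1 : (0 + (a : ℕ)) < L := by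
      have := a.2
      omega
    rw [pt_lt P h1]
    congr 1
    apply Fin.ext
    simp
  | succ p ih =>
    intro L _ hL
    obtain rfl : L = (w + p) + 1 := by omega
    have : NeZero (w + p) := ⟨by omega⟩
    rw [← ih (w + p) rfl, ← drop_first' hb (w + p) (by omega)]
    refine Finset.sum_congr rfl fun P _ => ?_
    congr 2
    funext a
    have h1 : p + (a : ℕ) < w + p := by
      have := a.2
      omega
    have h2 : p + 1 + (a : ℕ) < w + p + 1 := by
      have := a.2
      omega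
    rw [pt_lt P h2, pt_lt _ h1]
    congr 1
    apply Fin.ext
    simp
    omega

theorem mu_window_d (hb : Bdd l) (w : ℕ) [NeZero w] (hw : 2 ≤ w) (g : (Fin w → V) → ℝ) (p d : ℕ) :
    ∀ (L : ℕ) [NeZero L], L = w + p + d →
    ∑ P : Fin L → V, mu l L P * g (fun a => pt P (p + a)) =
      ∑ x : Fin w → V, mu l w x * g x := by
  induction d with
  | zero =>
    intro L _ hL
    exact mu_window_p hb w hw g p L hL
  | succ d ih =>
    intro L _ hL
    obtain rfl : L = (w + p + d) + 1 := by omega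
    have : NeZero (w + p + d) := ⟨by omega⟩
    rw [← ih (w + p + d) rfl, ← drop_last' hb (w + p + d) (by omega)]
    refine Finset.sum_congr rfl fun P _ => ?_
    congr 2
    funext a
    have h1 : p + (a : ℕ) < w + p + d := by
      have := a.2
      omega
    have h2 : p + (a : ℕ) < w + p + d + 1 := by
      have := a.2
      omega
    rw [pt_lt P h2, pt_lt _ h1]
    rfl

/-- total mass 1 -/
theorem mu_two (hb : Bdd l) : ∑ P : Fin 2 → V, mu l 2 P = 1 := by
  have hN := NN_pos hb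
  have hn : nn V = NN V + 1 := by
    unfold nn NN
    ring
  have h1 : ∑ P : Fin 2 → V, mu l 2 P = ∑ x : V, ∑ y : V, w0 x y := by
    rw [← (finTwoArrowEquiv V).symm.sum_comp, Fintype.sum_prod_type]
    refine Finset.sum_congr rfl fun x _ => Finset.sum_congr rfl fun y _ => ?_
    rw [mu_eq]
    unfold mup
    simp
    rfl
  have h2 : ∀ x : V, ∑ y : V, w0 x y = 1 / nn V := by
    intro x
    have h3 : ∀ y : V, w0 x y = 1 / (nn V * NN V) - if x = y then 1 / (nn V * NN V) else 0 := by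
      intro y
      unfold w0
      by_cases h : x = y
      · rw [if_neg (fun h' => h' h), if_pos h]
        ring
      · rw [if_pos h, if_neg h]
        ring
    simp_rw [h3]
    rw [Finset.sum_sub_distrib, Finset.sum_const, Finset.sum_ite_eq, if_pos (Finset.mem_univ x),
      Finset.card_univ, nsmul_eq_mul]
    have h4 : ((Fintype.card V : ℕ) : ℝ) = nn V := rfl
    rw [h4]
    have h5 : nn V ≠ 0 := by rw [hn]; positivity
    field_simp
    rw [hn]
    ring
  rw [h1]
  simp_rw [h2]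
  rw [Finset.sum_const, Finset.card_univ, nsmul_eq_mul]
  have h4 : ((Fintype.card V : ℕ) : ℝ) = nn V := rfl
  rw [h4]
  have h5 : nn V ≠ 0 := by rw [hn]; positivity
  field_simp

theorem mu_sum (hb : Bdd l) (L : ℕ) [NeZero L] (hL : 2 ≤ L) : ∑ P : Fin L → V, mu l L P = 1 := by
  have h := mu_window_d hb 2 le_rfl (fun _ : Fin 2 → V => (1 : ℝ)) 0 (L - 2) L (by omega)
  simp only [mul_one] at h
  rw [h]
  exact mu_two hb

end Pool.H90BX.Fl46
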